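import Pool.Agent.Helper78_E.Stmts

/-!
# RIESZ: the Riesz idempotent of an isolated point of the spectrum
-/

namespace Pool.Agent.H78E.H92

open MeasureTheory Filter Topology Complex Metric

theorem clm_circle {E F : Type*} [NormedAddCommGroup E] [NormedSpace ℂ E] [CompleteSpace E]
    [NormedAddCommGroup F] [NormedSpace ℂ F] [CompleteSpace F] (T : E →L[ℂ] F) {f : ℂ → E}
    {c : ℂ} {R : ℝ} (hf : CircleIntegrable f c R) :
    T (∮ z in C(c, R), f z) = ∮ z in C(c, R), T (f z) := by
  unfold circleIntegral
  rw [← ContinuousLinearMap.intervalIntegral_comp_comm T hf.out]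
  simp only [map_smul]

theorem cauchy_diff {E : Type*} [NormedAddCommGroup E] [NormedSpace ℂ E] [CompleteSpace E]
    {f : ℂ → E} {c : ℂ} {ρ : ℝ} (hρ : 0 < ρ) (hf : CircleIntegrable f c ρ) :
    DifferentiableOn ℂ (fun w : ℂ => (2 * (Real.pi : ℂ) * Complex.I)⁻¹ •
      ∮ l in C(c, ρ), (l - w)⁻¹ • f l) (ball c ρ) := by
  obtain ⟨R, rfl⟩ : ∃ R : NNReal, (R : ℝ) = ρ := ⟨⟨ρ, hρ.le⟩, rfl⟩
  have hd := (hasFPowerSeriesOn_cauchy_integral hf (by exact_mod_cast hρ)).differentiableOn
  rwa [Metric.eball_coe] at hd

section

variable {A : Type} [NormedRing A] [NormedAlgebra ℂ A] (a : A)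

/-- the resolvent -/
noncomputable def res (l : ℂ) : A := Ring.inverse (algebraMap ℂ A l - a)

variable {a}

theorem res_diff [CompleteSpace A] {l : ℂ} (h : IsUnit (algebraMap ℂ A l - a)) : DifferentiableAt ℂ (res a) l := by
  have h1 : DifferentiableAt ℂ (@Ring.inverse A _) (algebraMap ℂ A l - a) :=
    differentiableAt_inverse h
  have h2 : DifferentiableAt ℂ (fun l : ℂ => algebraMap ℂ A l - a) l := by
    have : DifferentiableAt ℂ (fun l : ℂ => algebraMap ℂ A l) l :=
      (Algebra.linearMap ℂ A).toContinuousLinearMap.differentiableAt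
    exact this.sub_const a
  exact DifferentiableAt.comp l h1 h2

theorem res_mul {l w : ℂ} (hl : IsUnit (algebraMap ℂ A l - a))
    (hw : IsUnit (algebraMap ℂ A w - a)) : (w - l) • (res a w * res a l) = res a l - res a w := by
  have e1 : res a w * (algebraMap ℂ A w - a) = 1 := Ring.inverse_mul_cancel _ hw
  have e2 : (algebraMap ℂ A l - a) * res a l = 1 := Ring.mul_inverse_cancel _ hl
  calc (w - l) • (res a w * res a l)
      = res a w * ((w - l) • (1 : A)) * res a l := by
        rw [mul_smul_comm, mul_one, smul_mul_assoc]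
    _ = res a w * ((algebraMap ℂ A w - a) - (algebraMap ℂ A l - a)) * res a l := by
        rw [sub_sub_sub_cancel_right, Algebra.algebraMap_eq_smul_one,
          Algebra.algebraMap_eq_smul_one, sub_smul]
    _ = (res a w * (algebraMap ℂ A w - a)) * res a l -
          res a w * ((algebraMap ℂ A l - a) * res a l) := by
        rw [mul_sub, sub_mul, mul_assoc (res a w) (algebraMap ℂ A l - a)]
    _ = res a l - res a w := by rw [e1, e2, one_mul, mul_one]

theorem res_comm {b : A} (h : Commute a b) {l : ℂ} (hl : IsUnit (algebraMap ℂ A l - a)) :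
    res a l * b = b * res a l := by
  have e1 : res a l * (algebraMap ℂ A l - a) = 1 := Ring.inverse_mul_cancel _ hl
  have e2 : (algebraMap ℂ A l - a) * res a l = 1 := Ring.mul_inverse_cancel _ hl
  have hc : (algebraMap ℂ A l - a) * b = b * (algebraMap ℂ A l - a) := by
    rw [sub_mul, mul_sub, h.eq, Algebra.commutes]
  calc res a l * b = res a l * b * ((algebraMap ℂ A l - a) * res a l) := by rw [e2, mul_one]
    _ = res a l * (b * (algebraMap ℂ A l - a)) * res a l := by simp only [mul_assoc]
    _ = res a l * ((algebraMap ℂ A l - a) * b) * res a l := by rw [hc]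
    _ = (res a l * (algebraMap ℂ A l - a)) * b * res a l := by simp only [mul_assoc]
    _ = b * res a l := by rw [e1, one_mul]

end

theorem riesz : RieszStmt := by
  intro A _ _ _ a l0 ρ hρ hu
  have hne : ∀ {r : ℝ} {l : ℂ}, 0 < r → l ∉ ball l0 r → l ≠ l0 := by
    intro r l hr hl h
    rw [h] at hl
    exact hl (mem_ball_self hr)
  have hcont : ∀ r, 0 < r → ContinuousOn (res a) (closedBall l0 ρ \ ball l0 r) := by
    intro r hr l hl
    refine (res_diff (hu l (hne hr hl.2) ?_)).continuousAt.continuousWithinAt
    have := hl.1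
    rwa [mem_closedBall, dist_eq_norm] at this
  have hsph : ∀ r, 0 < r → r ≤ ρ → ContinuousOn (res a) (sphere l0 r) := by
    intro r hr hr'
    refine (hcont r hr).mono (fun l hl => ⟨?_, ?_⟩)
    · rw [mem_sphere] at hl
      rw [mem_closedBall]
      linarith
    · rw [mem_sphere] at hl
      rw [mem_ball]
      linarith
  have hint : ∀ r, 0 < r → r ≤ ρ → CircleIntegrable (res a) l0 r := fun r hr hr' =>
    (hsph r hr hr').circleIntegrable hr.le
  have hsame : (∮ z in C(l0, ρ), res a z) = ∮ z in C(l0, ρ / 2), res a z := by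
    refine circleIntegral_eq_of_differentiable_on_annulus_off_countable (by positivity)
      (by linarith) Set.countable_empty (hcont (ρ / 2) (by positivity)) ?_
    intro z hz
    refine res_diff (hu z (hne (r := ρ / 2) (by positivity) (fun h => hz.1.2 (ball_subset_closedBall h))) ?_)
    have := hz.1.1
    rw [mem_ball, dist_eq_norm] at this
    exact this.le
  set e : A := (2 * (Real.pi : ℂ) * Complex.I)⁻¹ • ∮ l in C(l0, ρ), res a l with he
  have hpi : (2 * (Real.pi : ℂ) * Complex.I) ≠ 0 := Complex.two_pi_I_ne_zero
  refine ⟨e, ?_, ?_, ?_⟩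
  · -- idempotent
    have key : ∀ w ∈ sphere l0 (ρ / 2), res a w * e = res a w -
        (2 * (Real.pi : ℂ) * Complex.I)⁻¹ • ∮ l in C(l0, ρ), (l - w)⁻¹ • res a l := by
      intro w hw
      have hwb : w ∈ ball l0 ρ := by
        rw [mem_sphere] at hw
        rw [mem_ball]
        linarith
      have hwne : w ≠ l0 := by
        rintro rfl
        rw [mem_sphere, dist_self] at hw
        linarith
      have hwu : IsUnit (algebraMap ℂ A w - a) := by
        refine hu w hwne ?_
        rw [mem_ball, dist_eq_norm] at hwb
        exact hwb.le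
      have h1 : res a w * e = (2 * (Real.pi : ℂ) * Complex.I)⁻¹ •
          ∮ l in C(l0, ρ), res a w * res a l := by
        have := clm_circle (ContinuousLinearMap.mul ℂ A (res a w)) (hint ρ hρ le_rfl)
        simp only [ContinuousLinearMap.mul_apply'] at this
        rw [he, mul_smul_comm, this]
      have hinvc : ContinuousOn (fun l : ℂ => (l - w)⁻¹) (sphere l0 ρ) := by
        refine ContinuousOn.inv₀ (by fun_prop) (fun l hl h => ?_)
        rw [sub_eq_zero] at h
        subst h
        rw [mem_sphere] at hl
        rw [mem_ball] at hwb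
        linarith
      have h2 : (∮ l in C(l0, ρ), res a w * res a l) =
          ∮ l in C(l0, ρ), ((l - w)⁻¹ • res a w - (l - w)⁻¹ • res a l) := by
        refine circleIntegral.integral_congr hρ.le (fun l hl => ?_)
        have hlne : l ≠ l0 := by
          rintro rfl
          rw [mem_sphere, dist_self] at hl
          linarith
        have hlu : IsUnit (algebraMap ℂ A l - a) := by
          refine hu l hlne ?_
          rw [mem_sphere, dist_eq_norm] at hl
          exact hl.le
        have hlw : w - l ≠ 0 := by
          intro h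
          rw [sub_eq_zero] at h
          subst h
          rw [mem_sphere] at hl
          rw [mem_ball] at hwb
          linarith
        have := res_mul hlu hwu
        have h3 : res a w * res a l = (w - l)⁻¹ • (res a l - res a w) := by
          rw [← this, smul_smul, inv_mul_cancel₀ hlw, one_smul]
        have h4 : (l - w)⁻¹ = -(w - l)⁻¹ := by
          rw [← neg_sub w l, inv_neg]
        show res a w * res a l = (l - w)⁻¹ • res a w - (l - w)⁻¹ • res a l
        rw [h3, h4, smul_sub, neg_smul, neg_smul]
        abel
      have i1 : CircleIntegrable (fun l : ℂ => (l - w)⁻¹ • res a w) l0 ρ :=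
        (hinvc.smul continuousOn_const).circleIntegrable hρ.le
      have i2 : CircleIntegrable (fun l : ℂ => (l - w)⁻¹ • res a l) l0 ρ :=
        (hinvc.smul (hsph ρ hρ le_rfl)).circleIntegrable hρ.le
      rw [h1, h2, circleIntegral.integral_sub i1 i2, smul_sub, circleIntegral.integral_smul_const,
        circleIntegral.integral_sub_inv_of_mem_ball hwb, smul_smul, inv_mul_cancel₀ hpi, one_smul]
    have hH : DifferentiableOn ℂ (fun w : ℂ => (2 * (Real.pi : ℂ) * Complex.I)⁻¹ •
        ∮ l in C(l0, ρ), (l - w)⁻¹ • res a l) (ball l0 ρ) := by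
      exact cauchy_diff hρ (hint ρ hρ le_rfl)
    have hH0 : (∮ w in C(l0, ρ / 2), ((2 * (Real.pi : ℂ) * Complex.I)⁻¹ •
        ∮ l in C(l0, ρ), (l - w)⁻¹ • res a l)) = 0 := by
      refine circleIntegral_eq_zero_of_differentiable_on_off_countable (by positivity)
        Set.countable_empty ?_ ?_
      · exact hH.continuousOn.mono (closedBall_subset_ball (by linarith))
      · intro z hz
        exact hH.differentiableAt (isOpen_ball.mem_nhds (ball_subset_ball (by linarith) hz.1))
    have hHi : CircleIntegrable (fun w : ℂ => (2 * (Real.pi : ℂ) * Complex.I)⁻¹ •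
        ∮ l in C(l0, ρ), (l - w)⁻¹ • res a l) l0 (ρ / 2) :=
      (hH.continuousOn.mono (sphere_subset_closedBall.trans
        (closedBall_subset_ball (by linarith)))).circleIntegrable (by positivity)
    have h5 : e * e = (2 * (Real.pi : ℂ) * Complex.I)⁻¹ •
        ∮ w in C(l0, ρ / 2), res a w * e := by
      have := clm_circle ((ContinuousLinearMap.mul ℂ A).flip e) (hint (ρ / 2) (by positivity)
        (by linarith))
      simp only [ContinuousLinearMap.flip_apply, ContinuousLinearMap.mul_apply'] at this
      rw [← this, ← hsame, ← smul_mul_assoc, ← he]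
    rw [h5, circleIntegral.integral_congr (by positivity) key,
      circleIntegral.integral_sub (hint _ (by positivity) (by linarith)) hHi, hH0, sub_zero,
      ← hsame]
  · intro b hb
    have h1 := clm_circle ((ContinuousLinearMap.mul ℂ A).flip b) (hint ρ hρ le_rfl)
    have h2 := clm_circle (ContinuousLinearMap.mul ℂ A b) (hint ρ hρ le_rfl)
    simp only [ContinuousLinearMap.flip_apply, ContinuousLinearMap.mul_apply'] at h1 h2
    show e * b = b * e
    rw [he, smul_mul_assoc, mul_smul_comm, h1, h2]
    congr 1
    refine circleIntegral.integral_congr hρ.le (fun l hl => ?_)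
    have hlne : l ≠ l0 := by
      rintro rfl
      rw [mem_sphere, dist_self] at hl
      linarith
    have hlu : IsUnit (algebraMap ℂ A l - a) := by
      refine hu l hlne ?_
      rw [mem_sphere, dist_eq_norm] at hl
      exact hl.le
    exact res_comm hb hlu
  · intro θ
    rw [he, map_smul, clm_circle θ (hint ρ hρ le_rfl), smul_eq_mul]
    rfl

end Pool.Agent.H78E.H92
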