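import Pool.Agent.Helper92_E.Pos2d

/-!
# MP_7d2497_an, module POS2: the positive direction for weights of large growth
-/

namespace Pool.Agent.H78E.H92

open MeasureTheory Filter Topology Complex
open Pool.Agent.H78E

noncomputable section

/-- A circle avoiding a closed set of reals which is countable far out. -/
theorem exists_circle {K : Set ℝ} (hK : IsClosed K) {R : ℝ} (hR : 0 < R)
    (hc : {x : ℝ | x ∈ K ∧ R ≤ |x|}.Countable) :
    ∃ ρ1 ρ : ℝ, R < ρ ∧ 0 < ρ1 ∧ ρ1 < ρ ∧ ∀ x ∈ K, ρ1 ≤ |x| → |x| ≤ ρ → False := by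
  set S : Set ℝ := {x : ℝ | x ∈ K ∧ R ≤ |x|} with hS
  have hS2 : (S ∪ (fun x : ℝ => -x) '' S).Countable := hc.union (hc.image _)
  obtain ⟨ρ, hρ, hρ1, hρ2⟩ := (hS2.dense_compl ℝ).exists_between (show R < R + 1 by linarith)
  have hρ0 : 0 < ρ := hR.trans hρ1
  have h1 : ρ ∈ Kᶜ := by
    intro h
    exact hρ (Or.inl ⟨h, by rw [abs_of_pos hρ0]; exact hρ1.le⟩)
  have h2 : -ρ ∈ Kᶜ := by
    intro h
    refine hρ (Or.inr ⟨-ρ, ⟨h, ?_⟩, by simp⟩)
    rw [abs_neg, abs_of_pos hρ0]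
    exact hρ1.le
  obtain ⟨d1, hd1, hb1⟩ := Metric.isOpen_iff.mp hK.isOpen_compl ρ h1
  obtain ⟨d2, hd2, hb2⟩ := Metric.isOpen_iff.mp hK.isOpen_compl (-ρ) h2
  have hd : 0 < min (min d1 d2) ρ := lt_min (lt_min hd1 hd2) hρ0
  have hda : min (min d1 d2) ρ ≤ d1 := (min_le_left _ _).trans (min_le_left _ _)
  have hdb : min (min d1 d2) ρ ≤ d2 := (min_le_left _ _).trans (min_le_right _ _)
  have hdc : min (min d1 d2) ρ ≤ ρ := min_le_right _ _
  refine ⟨ρ - min (min d1 d2) ρ / 2, ρ, hρ1, by linarith, by linarith, ?_⟩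
  intro x hx hx1 hx2
  rcases le_total 0 x with h | h
  · rw [abs_of_nonneg h] at hx1 hx2
    apply hb1 _ hx
    rw [Metric.mem_ball, Real.dist_eq, abs_lt]
    constructor <;> linarith
  · rw [abs_of_nonpos h] at hx1 hx2
    apply hb2 _ hx
    rw [Metric.mem_ball, Real.dist_eq, abs_lt]
    constructor <;> linarith

/-- Translates in the weighted space. -/
theorem L1_shift {φ : ℝ → ℝ} (hφ : IsWeight φ) {f : ℝ → ℂ} (hf : L1 φ f) (s : ℝ) :
    L1 φ (fun t => f (t - s)) := by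
  have hm : AEStronglyMeasurable (fun t => f (t - s)) volume :=
    hf.1.comp_quasiMeasurePreserving (mp_sub s).quasiMeasurePreserving
  refine ⟨hm, ?_⟩
  have h1 : Integrable (fun t : ℝ => φ (t - s) * ‖f (t - s)‖) volume := hf.2.comp_sub_right s
  refine (h1.const_mul (φ s)).mono' (hφ.meas.aestronglyMeasurable.mul hm.norm) ?_
  refine Eventually.of_forall fun t => ?_
  have h2 : 0 ≤ φ t := zero_le_one.trans (hφ.one_le t)
  rw [Real.norm_of_nonneg (mul_nonneg h2 (norm_nonneg _))]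
  have h3 := hφ.submul s (t - s)
  rw [add_sub_cancel] at h3
  calc φ t * ‖f (t - s)‖ ≤ (φ s * φ (t - s)) * ‖f (t - s)‖ :=
        mul_le_mul_of_nonneg_right h3 (norm_nonneg _)
    _ = φ s * (φ (t - s) * ‖f (t - s)‖) := by ring

theorem L1_integrable {φ : ℝ → ℝ} (hφ : IsWeight φ) {f : ℝ → ℂ} (hf : L1 φ f) :
    Integrable f volume := by
  refine hf.2.mono' hf.1 (Eventually.of_forall fun t => ?_)
  calc ‖f t‖ = 1 * ‖f t‖ := (one_mul _).symm
    _ ≤ φ t * ‖f t‖ := mul_le_mul_of_nonneg_right (hφ.one_le t) (norm_nonneg _)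

/-- Growth of the contour integrals against the weight. -/
theorem Xi_weight {J : InvSub} {ρ1 ρ : ℝ} (hC : Circ J ρ1 ρ) (hGro : GroStmt) {φ : ℝ → ℝ}
    (hφ : IsWeight φ) {c T : ℝ} (hc : 0 < c)
    (hT : ∀ t : ℝ, T ≤ t → c * Real.sqrt t ≤ Real.log (φ (-t)))
    (hunit : ∀ z : ℂ, z ∉ J.hull → IsUnit (J.S.D z)) (hreal : ∀ z ∈ J.hull, z.im = 0)
    (hloc : ∀ x0 : ℝ, (x0 : ℂ) ∈ J.hull → ∃ d B : ℝ, 0 < d ∧ 0 ≤ B ∧ ∀ z : ℂ, z.im < 0 →
      ‖z - (x0 : ℂ)‖ < d → ‖J.S.En 1 * Ring.inverse (J.S.D z)‖ ≤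
        B * Real.exp (c ^ 2 / 4 / |z.im|)) :
    ∃ C : ℝ, 0 ≤ C ∧ ∀ t : ℝ, ‖Xi J ρ t‖ ≤ C * φ t := by
  have ha : 0 < c ^ 2 / 4 := by positivity
  obtain ⟨B, hB0, hB⟩ := q_bound_disc ha hloc hunit hreal ρ
  obtain ⟨M, hM⟩ := (isCompact_sphere (0 : ℂ) ρ).exists_bound_of_continuousOn (q_contOn hC)
  have hM' : ∀ z : ℂ, ‖z‖ = ρ → ‖J.q z‖ ≤ max M 0 := fun z hz =>
    (hM z (by rw [mem_sphere_zero_iff_norm]; exact hz)).trans (le_max_left _ _)
  have hlow : ∀ z : ℂ, z.im < 0 → IsUnit (J.S.D z) := by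
    intro z hz
    apply hunit
    intro h
    have := hreal z h
    linarith
  have hρ := hC.rpos
  set A : ℝ := ρ * (max M 0 + B) with hA
  have hA0 : 0 ≤ A := by
    have := le_max_right M 0
    positivity
  set T' : ℝ := max T 0 with hT'
  have hT'0 : 0 ≤ T' := le_max_right _ _
  refine ⟨‖Xi J ρ 0‖ + A * Real.exp (c * Real.sqrt T'), by positivity, ?_⟩
  intro t
  have hφ1 := hφ.one_le t
  rcases le_or_gt 0 t with h | h
  · calc ‖Xi J ρ t‖ ≤ ‖Xi J ρ 0‖ := Xi_pos hC h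
      _ ≤ (‖Xi J ρ 0‖ + A * Real.exp (c * Real.sqrt T')) * 1 := by
          rw [mul_one]
          have : 0 ≤ A * Real.exp (c * Real.sqrt T') := by positivity
          linarith
      _ ≤ _ := mul_le_mul_of_nonneg_left hφ1 (by positivity)
  · obtain ⟨u, hu⟩ : ∃ u, u = -t := ⟨_, rfl⟩
    have hu0 : 0 < u := by rw [hu]; linarith
    have htu : t = -u := by rw [hu]; ring
    have h1 := Xi_neg hC hGro ha hu0 (le_max_right M 0) hB0 hlow hM' hB
    have h2 : 2 * Real.sqrt (c ^ 2 / 4 * u) = c * Real.sqrt u := by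
      rw [Real.sqrt_mul (by positivity)]
      have h3 : c ^ 2 / 4 = (c / 2) ^ 2 := by ring
      rw [h3, Real.sqrt_sq (by positivity)]
      ring
    rw [h2] at h1
    have h4 : Real.exp (c * Real.sqrt u) ≤ Real.exp (c * Real.sqrt T') * φ (-u) := by
      have hp : 0 < φ (-u) := lt_of_lt_of_le one_pos (hφ.one_le _)
      rcases le_total T' u with h5 | h5
      · have h6 := hT u ((le_max_left _ _).trans h5)
        have h7 : Real.exp (c * Real.sqrt u) ≤ φ (-u) := by
          rw [← Real.exp_log hp]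
          exact Real.exp_le_exp.mpr h6
        have h8 : 1 ≤ Real.exp (c * Real.sqrt T') := Real.one_le_exp (by positivity)
        calc Real.exp (c * Real.sqrt u) ≤ 1 * φ (-u) := by rw [one_mul]; exact h7
          _ ≤ _ := mul_le_mul_of_nonneg_right h8 hp.le
      · have h6 : Real.exp (c * Real.sqrt u) ≤ Real.exp (c * Real.sqrt T') := by
          apply Real.exp_le_exp.mpr
          apply mul_le_mul_of_nonneg_left _ hc.le
          exact Real.sqrt_le_sqrt h5
        calc Real.exp (c * Real.sqrt u) ≤ Real.exp (c * Real.sqrt T') * 1 := by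
              rw [mul_one]; exact h6
          _ ≤ _ := mul_le_mul_of_nonneg_left (hφ.one_le _) (Real.exp_pos _).le
    rw [htu]
    have hp : 0 ≤ φ (-u) := zero_le_one.trans (hφ.one_le _)
    calc ‖Xi J ρ (-u)‖ ≤ A * Real.exp (c * Real.sqrt u) := h1
      _ ≤ A * (Real.exp (c * Real.sqrt T') * φ (-u)) := mul_le_mul_of_nonneg_left h4 hA0
      _ = (A * Real.exp (c * Real.sqrt T')) * φ (-u) := by ring
      _ ≤ _ := by
          apply mul_le_mul_of_nonneg_right _ hp
          have := norm_nonneg (Xi J ρ 0)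
          linarith

/-- POS2 -/
theorem pos2 (hDu : DualStmt) (hBi : BipolarStmt) (hBP : BipolarPosStmt) (hRi : RieszStmt)
    (hUl : UltraStmt) (hLine : LineStmt) (hL : LapuStmt) (hR : ResidStmt) (hA : AlgStmt)
    (hD : DensStmt) (hLoc : LocStmt) (hGro : GroStmt) (hRiec : RiecStmt) : Pos2Stmt := by
  rintro φ hφ ⟨C0, hb⟩ ⟨c, T, hc, hT⟩ L ⟨R, hLR⟩ g hg hne hsimple hsub
  obtain ⟨U, hU⟩ := hUl
  have hU' : Idem U := hU
  obtain ⟨l, hl⟩ := exists_functional hφ hb hg
  have hspec : SpecPos φ g = (ann l).hull := specPos_eq hφ hb hBP hg hl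
  rw [hspec] at hne hsub
  -- simplicity in terms of functionals
  have hsimp : SimpleF l := by
    intro k hk hz
    obtain ⟨u, hu, hum, hu0, Cu, hCu⟩ := exists_function hDu k
    have huL : LInfPos φ u := linfPos_of_bounded hφ hum hu0 hCu
    have huB : u ∈ BPos φ g := (mem_BPos_iff hφ hb hBP hg huL hl hu).mpr hk
    obtain ⟨c, z, hz1, hz2⟩ := hsimple u huB (by
      obtain ⟨z, hz⟩ := hz
      exact ⟨z, by rw [specPos_eq hφ hb hBP huL hu, hz]⟩)
    exact ⟨c, z, hz1, rep_smul_exp hu hz1 hz2⟩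
  have hreal : ∀ z ∈ (ann l).hull, z.im = 0 := by
    intro z hz
    obtain ⟨x, _, rfl⟩ := hsub hz
    simp
  have hre : ∀ z ∈ (ann l).hull, z = ((z.re : ℝ) : ℂ) := by
    intro z hz
    apply Complex.ext <;> simp [hreal z hz]
  set K : Set ℝ := {x : ℝ | (x : ℂ) ∈ (ann l).hull} with hK
  have hKcl : IsClosed K := hull_isClosed _
  have hKL : K ⊆ L := by
    intro x hx
    obtain ⟨y, hy, hyx⟩ := hsub hx
    have : y = x := Complex.ofReal_injective hyx
    rw [← this]
    exact hy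
  -- the circle
  set R' : ℝ := max R 1 with hR'
  have hR'0 : 0 < R' := lt_of_lt_of_le one_pos (le_max_right _ _)
  have hcl : IsClosed {x : ℝ | x ∈ K ∧ R' ≤ |x|} :=
    hKcl.inter (isClosed_le continuous_const continuous_abs)
  have hcount : {x : ℝ | x ∈ K ∧ R' ≤ |x|}.Countable := by
    apply hLR _ (fun x hx => hKL hx.1) _ hcl
    intro x hx
    exact (le_max_left _ _).trans hx.2
  obtain ⟨ρ1, ρ, hRρ, hρ1, hρρ, hav⟩ := exists_circle hKcl hR'0 hcount
  have hunit : ∀ z : ℂ, z ∉ (ann l).hull → IsUnit ((ann l).S.D z) :=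
    fun z hz => (ann l).D_unit hL hR hA hD hz
  have hC : Circ (ann l) ρ1 ρ := by
    refine ⟨hρ1, hρρ, ?_⟩
    intro z h1 h2
    apply hunit
    intro hz
    have h3 := hre z hz
    have h4 : ‖z‖ = |z.re| := by
      rw [h3, Complex.norm_real, Real.norm_eq_abs]
      simp
    rw [h4] at h1 h2
    exact hav z.re (by rw [hK, Set.mem_ofPred_eq, ← h3]; exact hz) h1 h2
  -- growth
  obtain ⟨CX, hCX0, hCX⟩ := Xi_weight hC hGro hφ hc hT hunit hreal
    (fun x0 hx0 => hLoc l hsimp x0 hx0 (c ^ 2 / 4) (by positivity) hreal)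
  -- the far part
  have hle1 : (ann l).I ≤ (ann (lf l ρ)).I := ann_le_lf hC
  have hcount1 : {x : ℝ | (x : ℂ) ∈ (ann (lf l ρ)).hull}.Countable := by
    refine hcount.mono ?_
    intro x hx
    obtain ⟨h1, h2⟩ := far_of_hull hC hL hRiec hx
    exact ⟨h1, hRρ.le.trans (not_lt.mp h2)⟩
  have hPl : Pf U (lf l ρ) = lf l ρ :=
    mean0 hRi hL hR hA hD hU' hsimp hne hreal hle1 hcount1
  obtain ⟨Gf, hGfm, ⟨Cf, hCf⟩, hGfr, hGfk⟩ := extend hDu hU' hPl
  have hGbc : Continuous (Gb l ρ) := Gb_cont hC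
  have hGbn : ∀ t, ‖Gb l ρ t‖ ≤ (‖kq l‖ * CX) * φ t := by
    intro t
    unfold Gb
    refine ((kq l).le_opNorm _).trans ?_
    rw [mul_assoc]
    exact mul_le_mul_of_nonneg_left (hCX t) (norm_nonneg _)
  have hCf0 : 0 ≤ Cf := (norm_nonneg _).trans (hCf 0)
  -- the extension
  set G : ℝ → ℂ := fun t => Gb l ρ t + Gf t with hG
  have hGm : Measurable G := hGbc.measurable.add hGfm
  have hGn : ∀ t, ‖G t‖ ≤ (‖kq l‖ * CX + Cf) * φ t := by
    intro t
    have h1 := hφ.one_le t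
    calc ‖G t‖ ≤ ‖Gb l ρ t‖ + ‖Gf t‖ := norm_add_le _ _
      _ ≤ (‖kq l‖ * CX) * φ t + Cf * φ t := by
          apply add_le_add (hGbn t)
          calc ‖Gf t‖ ≤ Cf * 1 := by rw [mul_one]; exact hCf t
            _ ≤ Cf * φ t := mul_le_mul_of_nonneg_left h1 hCf0
      _ = _ := by ring
  have hGL : LInf φ G := ⟨hGm.aestronglyMeasurable, _, Eventually.of_forall hGn⟩
  -- integrability facts on the half-line space
  have hFi : ∀ (F : Y) (s : ℝ), Integrable (fun t => ((F : X) : ℝ → ℂ) t * Gb l ρ (t + s)) volume := by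
    intro F s
    have hpos : ∀ t : ℝ, 0 ≤ t → φ (t + s) ≤ C0 * φ s := by
      intro t ht
      exact (hφ.submul t s).trans (mul_le_mul_of_nonneg_right (hb t ht)
        (zero_le_one.trans (hφ.one_le s)))
    have h0 : 0 ≤ ‖kq l‖ * CX := by positivity
    refine ((Y_integrable F).norm.mul_const ((‖kq l‖ * CX) * (C0 * φ s))).mono' ?_ ?_
    · exact (Y_integrable F).aestronglyMeasurable.mul
        (hGbc.comp (continuous_add_const s)).aestronglyMeasurable
    · have hF : ∀ᵐ t : ℝ, t < 0 → ((F : X) : ℝ → ℂ) t = 0 := F.2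
      filter_upwards [hF] with t ht
      rw [norm_mul]
      by_cases h : t < 0
      · rw [ht h, norm_zero, zero_mul, zero_mul]
      · apply mul_le_mul_of_nonneg_left _ (norm_nonneg _)
        exact (hGbn _).trans (mul_le_mul_of_nonneg_left (hpos t (not_lt.mp h)) h0)
  have hFf : ∀ (F : Y) (s : ℝ), Integrable (fun t => ((F : X) : ℝ → ℂ) t * Gf (t + s)) volume := by
    intro F s
    exact (Y_integrable F).mul_bdd (c := Cf) (hGfm.comp (measurable_add_const s)).aestronglyMeasurable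
        (Eventually.of_forall fun t => hCf _)
  have hFG : ∀ (F : Y) (s : ℝ), ∫ t : ℝ, ((F : X) : ℝ → ℂ) t * G (t + s) =
      kq l (Ec (ann l) ρ s ((ann l).qm F)) + ∫ t : ℝ, ((F : X) : ℝ → ℂ) t * Gf (t + s) := by
    intro F s
    rw [← rep_b hC hL, ← integral_add (hFi F s) (hFf F s)]
    congr 1
    ext1 t
    simp only [hG]
    ring
  have hrepG : Rep l G := by
    intro F
    have h1 := hFG F 0
    simp only [add_zero] at h1
    rw [h1, ← hGfr F, lf_apply]
    ring
  have hkillG : ∀ F ∈ (ann l).I, ∀ s : ℝ, ∫ t : ℝ, ((F : X) : ℝ → ℂ) t * G (t + s) = 0 := by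
    intro F hF s
    rw [hFG, (ann l).qm_eq_zero.mpr hF, map_zero, map_zero, zero_add]
    exact hGfk F (hle1 hF) s
  obtain ⟨Cg, hCg⟩ := bounded_of_linfPos hφ hb hg
  have hGg : ∀ᵐ t : ℝ, 0 ≤ t → G t = g t :=
    rep_unique hrepG hl hGm.aestronglyMeasurable hg.1.1
      (C := max ((‖kq l‖ * CX + Cf) * C0) Cg)
      (Eventually.of_forall fun t ht => (hGn t).trans
        ((mul_le_mul_of_nonneg_left (hb t ht) (by positivity)).trans (le_max_left _ _)))
      (hCg.mono fun t ht _ => ht.trans (le_max_right _ _))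
  refine ⟨G, hGL, hGg, ?_⟩
  rw [hspec]
  -- the spectrum of the far part
  have hGfL : LInf φ Gf := by
    refine ⟨hGfm.aestronglyMeasurable, Cf, Eventually.of_forall fun t => ?_⟩
    calc ‖Gf t‖ ≤ Cf * 1 := by rw [mul_one]; exact hCf t
      _ ≤ Cf * φ t := mul_le_mul_of_nonneg_left (hφ.one_le t) hCf0
  have hcutL : LInfPos φ (cut Gf) := by
    apply linfPos_of_bounded hφ (cut_aesm hGfm.aestronglyMeasurable)
      (fun t ht => cut_of_neg _ ht) (C := Cf)
    intro t
    by_cases h : 0 ≤ t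
    · rw [cut_of_nonneg _ h]
      exact hCf t
    · rw [cut_of_neg _ (not_le.mp h), norm_zero]
      exact hCf0
  have hcutR : Rep (lf l ρ) (cut Gf) := by
    intro F
    rw [hGfr F]
    apply integral_congr_ae
    have hF : ∀ᵐ t : ℝ, t < 0 → ((F : X) : ℝ → ℂ) t = 0 := F.2
    filter_upwards [hF] with t ht
    by_cases h : t < 0
    · rw [ht h, zero_mul, zero_mul]
    · rw [cut_of_nonneg _ (not_lt.mp h)]
  have hreal1 : ∀ z ∈ (ann (lf l ρ)).hull, z.im = 0 := fun z hz => hreal z (hull_mono hle1 hz)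
  have hcountC : (ann (lf l ρ)).hull.Countable := by
    refine (hcount1.image (fun x : ℝ => (x : ℂ))).mono ?_
    intro z hz
    have h3 := hre z (hull_mono hle1 hz)
    exact ⟨z.re, by rw [Set.mem_ofPred_eq, ← h3]; exact hz, h3.symm⟩
  have hspf := specL hRi hL hR hA hD hBi hLine φ hφ ⟨C0, hb⟩ (cut Gf) Gf (lf l ρ) hcutL hcutR
    hGfL (Eventually.of_forall fun t ht => (cut_of_nonneg _ ht).symm) hGfk hreal1 hcountC
  apply Set.Subset.antisymm
  · rintro z ⟨x, hx, rfl⟩
    rw [mem_Spec hBi hφ hGL] at hx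
    refine ⟨by simp, fun F hF => ?_⟩
    obtain ⟨f, h1, h2, h3⟩ := ofY hφ hb F
    have h4 := hx f h1 (by
      intro s
      rw [← hkillG F hF s]
      apply integral_congr_ae
      filter_upwards [h3] with t ht
      rw [ht])
    rw [chi_rep (by simp) F, ← h4]
    apply integral_congr_ae
    filter_upwards [h3] with t ht
    rw [ht]
    by_cases h0 : 0 ≤ t
    · unfold expPos expR
      rw [if_pos h0]
    · rw [h2 t (not_le.mp h0), zero_mul, zero_mul]
  intro z hz
  have hzr := hre z hz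
  set x : ℝ := z.re with hx
  have hxh : (x : ℂ) ∈ (ann l).hull := by rw [← hzr]; exact hz
  refine ⟨x, ?_, hzr.symm⟩
  rw [mem_Spec hBi hφ hGL]
  -- functions killing the translates of `G`
  have hXi : ∀ f : ℝ → ℂ, L1 φ f → Integrable (fun t => f t • Xi (ann l) ρ t) volume := by
    intro f hf
    refine (hf.2.const_mul CX).mono' (hf.1.smul (Xi_cont hC).aestronglyMeasurable) ?_
    refine Eventually.of_forall fun t => ?_
    rw [norm_smul]
    calc ‖f t‖ * ‖Xi (ann l) ρ t‖ ≤ ‖f t‖ * (CX * φ t) :=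
          mul_le_mul_of_nonneg_left (hCX t) (norm_nonneg _)
      _ = CX * (φ t * ‖f t‖) := by ring
  have hfGb : ∀ f : ℝ → ℂ, L1 φ f → ∀ s : ℝ, Integrable (fun t => f t * Gb l ρ (t + s)) volume := by
    intro f hf s
    have h0 : 0 ≤ ‖kq l‖ * CX := by positivity
    refine (hf.2.const_mul ((‖kq l‖ * CX) * φ s)).mono' (hf.1.mul
      (hGbc.comp (continuous_add_const s)).aestronglyMeasurable) ?_
    refine Eventually.of_forall fun t => ?_
    rw [norm_mul]
    calc ‖f t‖ * ‖Gb l ρ (t + s)‖ ≤ ‖f t‖ * ((‖kq l‖ * CX) * (φ t * φ s)) := by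
          apply mul_le_mul_of_nonneg_left _ (norm_nonneg _)
          exact (hGbn _).trans (mul_le_mul_of_nonneg_left (hφ.submul t s) h0)
      _ = _ := by ring
  have hζ : ∀ f : ℝ → ℂ, L1 φ f → (∀ s : ℝ, ∫ t : ℝ, f t * G (t + s) = 0) →
      ∫ t : ℝ, f t • Xi (ann l) ρ t = 0 := by
    intro f hf h
    exact zeta_zero hC hL hRiec hGfm hCf hGfk (L1_integrable hφ hf) (hXi f hf) (hfGb f hf) h
  intro f hf h
  by_cases hxρ : |x| < ρ
  · have h1 := hζ f hf h
    have h2 := ContinuousLinearMap.integral_comp_comm ((ann l).ch hxh) (hXi f hf)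
    rw [h1, map_zero] at h2
    rw [← h2]
    congr 1
    ext1 t
    rw [map_smul, ch_Xi hC hxh, if_pos hxρ, smul_eq_mul]
    rfl
  · have h1 : (x : ℂ) ∈ (ann (lf l ρ)).hull := hull_of_far hC hL hxh hxρ
    rw [← hspf] at h1
    obtain ⟨y, hy, hyx⟩ := h1
    have hyx' : y = x := Complex.ofReal_injective hyx
    rw [hyx', mem_Spec hBi hφ hGfL] at hy
    apply hy f hf
    intro s
    -- translate
    have hfs : L1 φ (fun t => f (t - s)) := L1_shift hφ hf s
    have h2 : ∀ s' : ℝ, ∫ t : ℝ, f (t - s) * G (t + s') = 0 := by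
      intro s'
      have h3 := integral_sub_right_eq_self (μ := (volume : Measure ℝ))
        (fun t => f t * G (t + (s + s'))) s
      rw [h (s + s')] at h3
      rw [← h3]
      congr 1
      ext1 t
      congr 2
      ring
    have h4 := hζ _ hfs h2
    have h5 := ContinuousLinearMap.integral_comp_comm (kq l) (hXi _ hfs)
    rw [h4, map_zero] at h5
    have h6 : ∫ t : ℝ, f t * Gb l ρ (t + s) = 0 := by
      have h7 := integral_sub_right_eq_self (μ := (volume : Measure ℝ))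
        (fun t => f t * Gb l ρ (t + s)) s
      rw [← h7, ← h5]
      congr 1
      ext1 t
      rw [map_smul, smul_eq_mul, sub_add_cancel]
      rfl
    have h8 : Integrable (fun t => f t * Gf (t + s)) volume :=
      (L1_integrable hφ hf).mul_bdd (c := Cf) (hGfm.comp (measurable_add_const s)).aestronglyMeasurable
        (Eventually.of_forall fun t => hCf _)
    have h9 := h s
    simp only [hG, mul_add] at h9
    rw [integral_add (hfGb f hf s) h8, h6, zero_add] at h9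
    exact h9

end

end Pool.Agent.H78E.H92
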