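import Pool.Agent.Helper78_E.Stmts4
import Pool.Agent.Helper78_E.Pos
import Pool.Agent.Helper15_E.Line

/-!
# MP_7d2497_an, module POS2, part 1: contour integrals of the resolvent on the quotient
-/

namespace Pool.Agent.H78E.H92

open MeasureTheory Filter Topology Complex
open Pool.Agent.H78E

noncomputable section

/-- A continuous linear map commutes with the circle integral. -/
theorem clm_circle2 {E F : Type} [NormedAddCommGroup E] [NormedSpace ℂ E] [CompleteSpace E]
    [NormedAddCommGroup F] [NormedSpace ℂ F] [CompleteSpace F] (L : E →L[ℂ] F) {f : ℂ → E}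
    {c : ℂ} {R : ℝ} (hf : CircleIntegrable f c R) :
    L (∮ z in C(c, R), f z) = ∮ z in C(c, R), L (f z) := by
  simp only [circleIntegral]
  rw [← ContinuousLinearMap.intervalIntegral_comp_comm L hf.out]
  simp only [map_smul]

theorem circle_entire {E : Type} [NormedAddCommGroup E] [NormedSpace ℂ E] [CompleteSpace E]
    {f : ℂ → E} (hf : Differentiable ℂ f) {R : ℝ} (hR : 0 ≤ R) : ∮ z in C(0, R), f z = 0 :=
  Complex.circleIntegral_eq_zero_of_differentiable_on_off_countable hR Set.countable_empty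
    hf.continuous.continuousOn (fun z _ => hf z)

variable (J : InvSub)

/-- The resolvent `(z - A)⁻¹` of the generator. -/
def Rn (z : ℂ) : J.Q →L[ℂ] J.Q := (-Complex.I) • (J.S.En 1 * Ring.inverse (J.S.D z))

theorem D_comm_En (z : ℂ) : Commute (J.S.En 1) (J.S.D z) := by
  unfold CSemi.D
  exact (Commute.one_right _).sub_right ((Commute.refl _).smul_right _)

theorem inv_comm {B : J.Q →L[ℂ] J.Q} (hB : Commute B (J.S.En 1)) {z : ℂ}
    (hz : IsUnit (J.S.D z)) : Commute B (Ring.inverse (J.S.D z)) := by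
  have h1 : Commute B (J.S.D z) := by
    unfold CSemi.D
    exact (Commute.one_right _).sub_right (hB.smul_right _)
  obtain ⟨u, hu⟩ := hz
  rw [← hu] at h1 ⊢
  rw [Ring.inverse_unit]
  exact h1.units_inv_right

theorem Rn_comm {B : J.Q →L[ℂ] J.Q} (hB : Commute B (J.S.En 1)) {z : ℂ}
    (hz : IsUnit (J.S.D z)) : Commute B (Rn J z) := by
  unfold Rn
  exact (hB.mul_right (inv_comm J hB hz)).smul_right _

theorem Rn_sub {z w : ℂ} (hz : IsUnit (J.S.D z)) (hw : IsUnit (J.S.D w)) :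
    Rn J z - Rn J w = (w - z) • (Rn J z * Rn J w) := by
  set a := Ring.inverse (J.S.D z) with ha
  set b := Ring.inverse (J.S.D w) with hb
  set R := J.S.En 1 with hR
  have h1 : J.S.D w - J.S.D z = (Complex.I * (z - w)) • R := by
    unfold CSemi.D
    rw [sub_sub_sub_cancel_left, ← sub_smul]
    congr 1
    ring
  have h2 : a - b = (Complex.I * (z - w)) • (a * (R * b)) := by
    have e1 : a * J.S.D z = 1 := Ring.inverse_mul_cancel _ hz
    have e2 : J.S.D w * b = 1 := Ring.mul_inverse_cancel _ hw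
    calc a - b = a * (J.S.D w * b) - (a * J.S.D z) * b := by rw [e1, e2, mul_one, one_mul]
      _ = a * ((J.S.D w - J.S.D z) * b) := by rw [sub_mul, mul_sub, mul_assoc]
      _ = _ := by rw [h1, smul_mul_assoc, mul_smul_comm]
  unfold Rn
  rw [← smul_sub, ← mul_sub, h2, smul_mul_smul_comm, mul_smul_comm, smul_smul, smul_smul, mul_assoc]
  congr 1
  have := Complex.I_mul_I
  linear_combination (-(z - w) - (w - z)) * this

theorem inv_differentiableAt {z : ℂ} (hz : IsUnit (J.S.D z)) :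
    DifferentiableAt ℂ (fun z : ℂ => Ring.inverse (J.S.D z)) z := by
  have h1 : DifferentiableAt ℂ (fun z : ℂ => J.S.D z) z := by
    unfold CSemi.D
    fun_prop
  obtain ⟨u, hu⟩ := hz
  have h2 : DifferentiableAt ℂ (Ring.inverse : (J.Q →L[ℂ] J.Q) → (J.Q →L[ℂ] J.Q)) (J.S.D z) := by
    rw [← hu]
    exact differentiableAt_inverse u.isUnit
  exact DifferentiableAt.comp z h2 h1

theorem Rn_differentiableAt {z : ℂ} (hz : IsUnit (J.S.D z)) :
    DifferentiableAt ℂ (Rn J) z := by
  have h1 : DifferentiableAt ℂ (fun z : ℂ => J.S.En 1 * Ring.inverse (J.S.D z)) z :=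
    (differentiableAt_const _).mul (inv_differentiableAt J hz)
  exact h1.const_smul (-Complex.I)

/-- The resolvent operator is injective. -/
theorem En_inj {x : J.Q} (hx : J.S.En 1 x = 0) : x = 0 := by
  have h1 : ∀ v : ℝ, 0 < v → J.S.T v x = 0 := by
    intro v hv
    have h2 := J.S.hasDerivAt_T_En (a := 1) (by simp) 0 x hv
    rw [hx] at h2
    simp only [map_zero, smul_zero, zero_sub, zero_mul, Complex.exp_zero, one_smul] at h2
    have h3 := h2.unique (hasDerivAt_const v (0 : J.Q))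
    exact neg_eq_zero.mp h3
  have h2 : Tendsto (fun v : ℝ => J.S.T (max v 0) x) (𝓝[>] 0) (𝓝 (J.S.T (max 0 0) x)) :=
    (J.S.cont x).continuousAt.tendsto.mono_left nhdsWithin_le_nhds
  rw [max_self, J.S.zero] at h2
  refine tendsto_nhds_unique h2 (tendsto_const_nhds.congr' ?_)
  filter_upwards [self_mem_nhdsWithin] with v hv
  have hv' : (0 : ℝ) < v := hv
  rw [max_eq_left hv'.le, h1 v hv']

/-- The translates of a value of the resolvent. -/
theorem T_Rn {z : ℂ} (hz : IsUnit (J.S.D z)) (x : J.Q) {v : ℝ} (hv : 0 ≤ v) :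
    J.S.T v (Rn J z x) = Complex.exp (-(Complex.I * (v : ℂ) * z)) • (Rn J z x +
      Complex.I • ∫ u in (0 : ℝ)..v, Complex.exp (Complex.I * z * (u : ℂ)) • J.S.T (max u 0) x) := by
  set y := Ring.inverse (J.S.D z) x with hy
  have hDy : J.S.D z y = x := by
    have h := Ring.mul_inverse_cancel _ hz
    exact congrArg (fun A : J.Q →L[ℂ] J.Q => A x) h
  have hRy : Rn J z x = (-Complex.I) • J.S.En 1 y := rfl
  set F : ℝ → J.Q := fun v => Complex.exp (Complex.I * z * (v : ℂ)) • J.S.T (max v 0) (J.S.En 1 y) with hF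
  have hexp : Continuous fun u : ℝ => Complex.exp (Complex.I * z * (u : ℂ)) := by fun_prop
  have hFc : Continuous F := hexp.smul (J.S.cont _)
  have hder : ∀ u ∈ Set.Ioo (0 : ℝ) v, HasDerivAt F
      (-(Complex.exp (Complex.I * z * (u : ℂ)) • J.S.T (max u 0) x)) u := by
    intro u hu
    have h2 := J.S.hasDerivAt_T_En (a := 1) (by simp) (Complex.I * z) y hu.1
    have h3 : (Complex.exp (Complex.I * z * (u : ℂ)) •
        ((Complex.I * z + 1) • J.S.T u (J.S.En 1 y) - J.S.T u y)) =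
        -(Complex.exp (Complex.I * z * (u : ℂ)) • J.S.T (max u 0) x) := by
      rw [max_eq_left hu.1.le, ← hDy, CSemi.D_apply, map_sub, map_smul, ← smul_neg, neg_sub,
        add_comm (1 : ℂ)]
    rw [h3] at h2
    refine h2.congr_of_eventuallyEq ?_
    filter_upwards [lt_mem_nhds hu.1] with w hw
    simp only [hF]
    rw [max_eq_left hw.le]
  have hint : IntervalIntegrable (fun u : ℝ =>
      -(Complex.exp (Complex.I * z * (u : ℂ)) • J.S.T (max u 0) x)) volume 0 v := by
    apply Continuous.intervalIntegrable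
    exact (hexp.smul (J.S.cont x)).neg
  have h4 := intervalIntegral.integral_eq_sub_of_hasDerivAt_of_le hv hFc.continuousOn hder hint
  rw [intervalIntegral.integral_neg] at h4
  have h5 : F 0 = J.S.En 1 y := by
    simp only [hF]
    rw [max_self, J.S.zero]
    simp
  have h6 : F v = Complex.exp (Complex.I * z * (v : ℂ)) • J.S.T v (J.S.En 1 y) := by
    simp only [hF]
    rw [max_eq_left hv]
  have h7 : ∫ u in (0 : ℝ)..v, Complex.exp (Complex.I * z * (u : ℂ)) • J.S.T (max u 0) x =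
      J.S.En 1 y - Complex.exp (Complex.I * z * (v : ℂ)) • J.S.T v (J.S.En 1 y) := by
    rw [h6, h5] at h4
    rw [← neg_sub, ← h4, neg_neg]
  have h8 : Complex.exp (-(Complex.I * (v : ℂ) * z)) * Complex.exp (Complex.I * z * (v : ℂ)) = 1 := by
    rw [← Complex.exp_add]
    have h8 : -(Complex.I * (v : ℂ) * z) + Complex.I * z * (v : ℂ) = 0 := by ring
    rw [h8, Complex.exp_zero]
  have h9 : (-Complex.I) • J.S.En 1 y + Complex.I • (J.S.En 1 y -
      Complex.exp (Complex.I * z * (v : ℂ)) • J.S.T v (J.S.En 1 y)) =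
      Complex.exp (Complex.I * z * (v : ℂ)) • ((-Complex.I) • J.S.T v (J.S.En 1 y)) := by
    module
  rw [h7, hRy, h9, smul_smul, h8, one_smul, map_smul]

/-- The resolvent exists on an annulus next to the circle of radius `ρ`. -/
structure Circ (ρ1 ρ : ℝ) : Prop where
  pos : 0 < ρ1
  lt : ρ1 < ρ
  unit : ∀ z : ℂ, ρ1 ≤ ‖z‖ → ‖z‖ ≤ ρ → IsUnit (J.S.D z)

/-- Contour integrals of the resolvent. -/
def Ec (ρ s : ℝ) : J.Q →L[ℂ] J.Q :=
  (2 * (Real.pi : ℂ) * Complex.I)⁻¹ •
    ∮ z in C(0, ρ), Complex.exp (-(Complex.I * (s : ℂ) * z)) • Rn J z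

/-- The vector version. -/
def Xi (ρ s : ℝ) : J.Q :=
  (2 * (Real.pi : ℂ) * Complex.I)⁻¹ •
    ∮ z in C(0, ρ), Complex.exp (-(Complex.I * (s : ℂ) * z)) • ((-Complex.I) • J.q z)

variable {J} {ρ1 ρ : ℝ} (hC : Circ J ρ1 ρ)

include hC

theorem Circ.rpos : 0 < ρ := hC.pos.trans hC.lt

theorem Circ.unit' {z : ℂ} (hz : ‖z‖ = ρ) : IsUnit (J.S.D z) :=
  hC.unit z (by rw [hz]; exact hC.lt.le) hz.le

theorem Rn_contOn : ContinuousOn (Rn J) (Metric.sphere 0 ρ) := by
  intro z hz
  rw [mem_sphere_zero_iff_norm] at hz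
  exact (Rn_differentiableAt J (hC.unit' hz)).continuousAt.continuousWithinAt

theorem q_contOn : ContinuousOn J.q (Metric.sphere 0 ρ) := by
  intro z hz
  rw [mem_sphere_zero_iff_norm] at hz
  exact (J.q_differentiableAt (hC.unit' hz)).continuousAt.continuousWithinAt

omit hC in
theorem exp_cont (s : ℝ) : Continuous fun z : ℂ => Complex.exp (-(Complex.I * (s : ℂ) * z)) := by
  fun_prop

omit hC in
theorem exp_diff (s : ℝ) :
    Differentiable ℂ fun z : ℂ => Complex.exp (-(Complex.I * (s : ℂ) * z)) := by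
  fun_prop

theorem int_Ec (s : ℝ) :
    CircleIntegrable (fun z => Complex.exp (-(Complex.I * (s : ℂ) * z)) • Rn J z) 0 ρ :=
  ((exp_cont s).continuousOn.smul (Rn_contOn hC)).circleIntegrable hC.rpos.le

theorem int_Xi (s : ℝ) :
    CircleIntegrable (fun z => Complex.exp (-(Complex.I * (s : ℂ) * z)) • ((-Complex.I) • J.q z))
      0 ρ :=
  ((exp_cont s).continuousOn.smul (f := fun z : ℂ => Complex.exp (-(Complex.I * (s : ℂ) * z)))
    (g := fun z : ℂ => (-Complex.I) • J.q z)
    ((q_contOn hC).const_smul (-Complex.I))).circleIntegrable hC.rpos.le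

theorem Ec_mul (hRiec : RiecStmt) (s t : ℝ) : Ec J ρ s * Ec J ρ t = Ec J ρ (s + t) := by
  have h := hRiec (J.Q →L[ℂ] J.Q) (Rn J) 0 ρ1 ρ
    (fun z => Complex.exp (-(Complex.I * (s : ℂ) * z)))
    (fun z => Complex.exp (-(Complex.I * (t : ℂ) * z))) hC.pos hC.lt
    (by
      intro z h1 h2
      rw [sub_zero] at h1 h2
      exact Rn_differentiableAt J (hC.unit z h1 h2))
    (by
      intro z w h1 h2 h3 h4
      rw [sub_zero] at h1 h2 h3 h4
      exact Rn_sub J (hC.unit z h1 h2) (hC.unit w h3 h4))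
    (exp_diff s) (exp_diff t)
  have h2 : ∀ z : ℂ, Complex.exp (-(Complex.I * (s : ℂ) * z)) *
      Complex.exp (-(Complex.I * (t : ℂ) * z)) =
      Complex.exp (-(Complex.I * ((s + t : ℝ) : ℂ) * z)) := by
    intro z
    rw [← Complex.exp_add]
    congr 1
    push_cast
    ring
  simp only [h2] at h
  unfold Ec
  rw [smul_mul_smul_comm, h, smul_smul]
  congr 1
  have h3 : (2 * (Real.pi : ℂ) * Complex.I) ≠ 0 := by
    simp [Real.pi_ne_zero, Complex.I_ne_zero]
  field_simp

theorem Ec_comm {B : J.Q →L[ℂ] J.Q} (hB : Commute B (J.S.En 1)) (s : ℝ) :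
    Commute B (Ec J ρ s) := by
  unfold Ec
  apply Commute.smul_right
  have h1 := clm_circle2 (ContinuousLinearMap.mul ℂ (J.Q →L[ℂ] J.Q) B) (int_Ec hC s)
  have h2 := clm_circle2 ((ContinuousLinearMap.mul ℂ (J.Q →L[ℂ] J.Q)).flip B) (int_Ec hC s)
  simp only [ContinuousLinearMap.mul_apply', ContinuousLinearMap.flip_apply] at h1 h2
  change B * _ = _ * B
  rw [h1, h2]
  apply circleIntegral.integral_congr hC.rpos.le
  intro z hz
  rw [mem_sphere_zero_iff_norm] at hz
  simp only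
  rw [mul_smul_comm, smul_mul_assoc, (Rn_comm J hB (hC.unit' hz)).eq]

theorem Ec_apply (s : ℝ) (x : J.Q) : Ec J ρ s x = (2 * (Real.pi : ℂ) * Complex.I)⁻¹ •
    ∮ z in C(0, ρ), Complex.exp (-(Complex.I * (s : ℂ) * z)) • Rn J z x := by
  have h1 := clm_circle2 (ContinuousLinearMap.apply ℂ J.Q x) (int_Ec hC s)
  unfold Ec
  rw [smul_apply]
  congr 1

theorem En_Xi (s : ℝ) : J.S.En 1 (Xi J ρ s) = Ec J ρ s (J.qm rr) := by
  rw [Ec_apply hC]
  unfold Xi
  rw [map_smul, clm_circle2 (J.S.En 1) (int_Xi hC s)]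
  simp only [map_smul]
  rfl

omit hC in
theorem entire_part (κ : J.Q →L[ℂ] ℂ) (x : J.Q) {v : ℝ} (hv : 0 ≤ v) :
    Differentiable ℂ fun z : ℂ => ∫ u in (0 : ℝ)..v,
      κ (J.S.T (max u 0) x) * Complex.exp (Complex.I * z * (u : ℂ)) := by
  have hc : Continuous fun u : ℝ => κ (J.S.T (max u 0) x) := κ.continuous.comp (J.S.cont x)
  have h1 := Helper15_E.differentiableOn_exp_integral (μ := volume.restrict (Set.Ioc (0 : ℝ) v))
    (w := fun u : ℝ => κ (J.S.T (max u 0) x)) (τ := fun t : ℝ => t) hc.aestronglyMeasurable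
    measurable_id (U := Set.univ) isOpen_univ (by
      intro z _
      have h2 : Continuous fun u : ℝ => κ (J.S.T (max u 0) x) * Complex.exp (z * (u : ℂ)) :=
        hc.mul (by fun_prop)
      exact (h2.integrableOn_Icc (a := 0) (b := v)).mono_set Set.Ioc_subset_Icc_self)
  rw [differentiableOn_univ] at h1
  have h2 : Differentiable ℂ fun z : ℂ => Complex.I * z := by fun_prop
  have h3 := h1.comp h2
  have h4 : (fun z : ℂ => ∫ u in (0 : ℝ)..v,
      κ (J.S.T (max u 0) x) * Complex.exp (Complex.I * z * (u : ℂ))) =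
      ((fun z : ℂ => ∫ u in Set.Ioc (0 : ℝ) v,
      κ (J.S.T (max u 0) x) * Complex.exp (z * (u : ℂ))) ∘ fun z : ℂ => Complex.I * z) := by
    ext1 z
    simp only [Function.comp]
    rw [intervalIntegral.integral_of_le hv]
  rw [h4]
  exact h3

theorem T_Ec (s : ℝ) (x : J.Q) {v : ℝ} (hv : 0 ≤ v) :
    J.S.T v (Ec J ρ s x) = Ec J ρ (s + v) x := by
  have hint : ∀ s : ℝ, ∀ x : J.Q, CircleIntegrable
      (fun z => Complex.exp (-(Complex.I * (s : ℂ) * z)) • Rn J z x) 0 ρ := by
    intro s x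
    have h1 : ContinuousOn (fun z => Rn J z x) (Metric.sphere 0 ρ) :=
      (Rn_contOn hC).clm_apply continuousOn_const
    exact ((exp_cont s).continuousOn.smul (f := fun z : ℂ => Complex.exp (-(Complex.I * (s : ℂ) * z)))
      (g := fun z : ℂ => Rn J z x) h1).circleIntegrable hC.rpos.le
  rw [Ec_apply hC, Ec_apply hC, map_smul, clm_circle2 (J.S.T v) (hint s x)]
  congr 1
  have hint2 : CircleIntegrable (fun z => J.S.T v (Complex.exp (-(Complex.I * (s : ℂ) * z)) •
      Rn J z x)) 0 ρ := by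
    have h1 : ContinuousOn (fun z => J.S.T v (Complex.exp (-(Complex.I * (s : ℂ) * z)) •
        Rn J z x)) (Metric.sphere 0 ρ) := by
      apply (J.S.T v).continuous.comp_continuousOn
      exact (exp_cont s).continuousOn.smul
        (f := fun z : ℂ => Complex.exp (-(Complex.I * (s : ℂ) * z)))
        (g := fun z : ℂ => Rn J z x) ((Rn_contOn hC).clm_apply continuousOn_const)
    exact h1.circleIntegrable hC.rpos.le
  rw [SeparatingDual.eq_iff_forall_dual_eq (R := ℂ)]
  intro κ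
  rw [clm_circle2 κ hint2, clm_circle2 κ (hint (s + v) x)]
  set E : ℂ → ℂ := fun z => ∫ u in (0 : ℝ)..v,
      κ (J.S.T (max u 0) x) * Complex.exp (Complex.I * z * (u : ℂ)) with hE
  have hEd : Differentiable ℂ E := entire_part κ x hv
  have h1 : ∀ z ∈ Metric.sphere (0 : ℂ) ρ,
      κ (J.S.T v (Complex.exp (-(Complex.I * (s : ℂ) * z)) • Rn J z x)) =
      κ (Complex.exp (-(Complex.I * ((s + v : ℝ) : ℂ) * z)) • Rn J z x) +
      Complex.exp (-(Complex.I * ((s + v : ℝ) : ℂ) * z)) * (Complex.I * E z) := by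
    intro z hz
    rw [mem_sphere_zero_iff_norm] at hz
    have hcont : Continuous fun u : ℝ =>
        Complex.exp (Complex.I * z * (u : ℂ)) • J.S.T (max u 0) x := by
      have h3 : Continuous fun u : ℝ => Complex.exp (Complex.I * z * (u : ℂ)) := by fun_prop
      exact h3.smul (J.S.cont x)
    have h2 : κ (∫ u in (0 : ℝ)..v, Complex.exp (Complex.I * z * (u : ℂ)) • J.S.T (max u 0) x) =
        E z := by
      rw [← ContinuousLinearMap.intervalIntegral_comp_comm κ (hcont.intervalIntegrable 0 v)]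
      simp only [hE]
      congr 1
      ext1 u
      rw [map_smul, smul_eq_mul, mul_comm]
    have h4 : Complex.exp (-(Complex.I * ((s + v : ℝ) : ℂ) * z)) =
        Complex.exp (-(Complex.I * (s : ℂ) * z)) * Complex.exp (-(Complex.I * (v : ℂ) * z)) := by
      rw [← Complex.exp_add]
      congr 1
      push_cast
      ring
    rw [map_smul, T_Rn J (hC.unit' hz) x hv, map_smul, map_smul, map_add, map_smul, h2, h4,
      map_smul]
    simp only [smul_eq_mul]
    ring
  rw [circleIntegral.integral_congr hC.rpos.le h1, circleIntegral.integral_add]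
  · have h5 : ∮ z in C(0, ρ), Complex.exp (-(Complex.I * ((s + v : ℝ) : ℂ) * z)) *
        (Complex.I * E z) = 0 := by
      apply circle_entire _ hC.rpos.le
      exact (exp_diff (s + v)).mul (hEd.const_mul Complex.I)
    rw [h5, add_zero]
  · have h6 : ContinuousOn (fun z => κ (Complex.exp (-(Complex.I * ((s + v : ℝ) : ℂ) * z)) •
        Rn J z x)) (Metric.sphere 0 ρ) := by
      apply κ.continuous.comp_continuousOn
      exact (exp_cont (s + v)).continuousOn.smul
        (f := fun z : ℂ => Complex.exp (-(Complex.I * ((s + v : ℝ) : ℂ) * z)))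
        (g := fun z : ℂ => Rn J z x) ((Rn_contOn hC).clm_apply continuousOn_const)
    exact h6.circleIntegrable hC.rpos.le
  · apply ContinuousOn.circleIntegrable hC.rpos.le
    apply Continuous.continuousOn
    exact ((exp_diff (s + v)).mul (hEd.const_mul Complex.I)).continuous

omit hC in
theorem pi_En (f : ℝ → ℂ) : Commute (J.S.pi f) (J.S.En 1) := by
  ext x
  change J.S.pi f (J.S.En 1 x) = J.S.En 1 (J.S.pi f x)
  exact (J.S.pi_commute J.S (J.S.En 1) (fun s hs y => by
    have h := congrArg (fun A : J.Q →L[ℂ] J.Q => A y) (J.T_commute_En hs).eq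
    exact h) f x).symm

theorem T_Xi (s : ℝ) {v : ℝ} (hv : 0 ≤ v) : J.S.T v (Xi J ρ s) = Xi J ρ (s + v) := by
  rw [← sub_eq_zero]
  apply En_inj J
  rw [map_sub, En_Xi hC, ← T_Ec hC s _ hv, ← En_Xi hC]
  have h := congrArg (fun A : J.Q →L[ℂ] J.Q => A (Xi J ρ s)) (J.T_commute_En hv).eq
  have h' : J.S.En 1 (J.S.T v (Xi J ρ s)) = J.S.T v (J.S.En 1 (Xi J ρ s)) := h
  rw [h', sub_self]

omit hC in
theorem pi_rr : J.S.pi ((rr : X) : ℝ → ℂ) = J.S.En 1 := by
  unfold CSemi.En
  apply J.S.pi_congr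
  filter_upwards [rr_coe] with t ht h0
  rw [ht]
  unfold expPos
  rw [if_pos h0.le]
  congr 1
  have := Complex.I_mul_I
  linear_combination (t : ℂ) * this

theorem pi_Xi (hL : LapuStmt) (f : Y) (s : ℝ) :
    J.S.pi ((f : X) : ℝ → ℂ) (Xi J ρ s) = Ec J ρ s (J.qm f) := by
  rw [← sub_eq_zero]
  apply En_inj J
  have h1 : J.S.En 1 (J.S.pi ((f : X) : ℝ → ℂ) (Xi J ρ s)) =
      J.S.pi ((f : X) : ℝ → ℂ) (J.S.En 1 (Xi J ρ s)) :=
    (congrArg (fun A : J.Q →L[ℂ] J.Q => A (Xi J ρ s)) (pi_En ((f : X) : ℝ → ℂ)).eq).symm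
  have h2 : J.S.pi ((f : X) : ℝ → ℂ) (Ec J ρ s (J.qm rr)) =
      Ec J ρ s (J.S.pi ((f : X) : ℝ → ℂ) (J.qm rr)) :=
    congrArg (fun A : J.Q →L[ℂ] J.Q => A (J.qm rr)) (Ec_comm hC (pi_En ((f : X) : ℝ → ℂ)) s).eq
  have h3 : J.S.En 1 (Ec J ρ s (J.qm f)) = Ec J ρ s (J.S.En 1 (J.qm f)) :=
    congrArg (fun A : J.Q →L[ℂ] J.Q => A (J.qm f)) (Ec_comm hC (Commute.refl (J.S.En 1)) s).eq
  have h4 : J.S.pi ((f : X) : ℝ → ℂ) (J.qm rr) = J.S.En 1 (J.qm f) := by
    rw [← pi_rr, ← J.qm_pi, ← J.qm_pi]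
    congr 1
    exact conv_comm hL f rr
  rw [map_sub, h1, En_Xi hC, h2, h3, h4, sub_self]

end

end Pool.Agent.H78E.H92
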