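import Pool.Agent.Helper78_E.Stmts

/-!
# CA: the rhombus argument
-/

namespace Pool.Agent.H78E.H92

open MeasureTheory Filter Topology Complex Metric

theorem reinv_nonneg {ζ : ℂ} (h : 0 < ζ.re) : 0 ≤ (ζ⁻¹).re := by
  rw [Complex.inv_re]
  exact div_nonneg h.le (Complex.normSq_nonneg _)

theorem reinv_ge {ζ : ℂ} (h : 0 < ζ.re) (hi : |ζ.im| ≤ ζ.re) : 1 / (2 * ζ.re) ≤ (ζ⁻¹).re := by
  have hn : Complex.normSq ζ = ζ.re * ζ.re + ζ.im * ζ.im := Complex.normSq_apply ζ
  have h2 : ζ.im * ζ.im ≤ ζ.re * ζ.re := by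
    rw [← abs_mul_abs_self ζ.im]
    exact mul_le_mul hi hi (abs_nonneg _) h.le
  have hpos : 0 < Complex.normSq ζ := by
    rw [hn]
    nlinarith [mul_pos h h, mul_self_nonneg ζ.im]
  rw [Complex.inv_re, div_le_div_iff₀ (by positivity) hpos, hn]
  nlinarith

theorem abs_re_im (w : ℂ) : (|w.re| + |w.im|) ^ 2 ≤ 2 * ‖w‖ ^ 2 := by
  have h1 : ‖w‖ ^ 2 = w.re * w.re + w.im * w.im := by
    rw [← Complex.normSq_apply, Complex.normSq_eq_norm_sq]
  have h2 := sq_abs w.re
  have h3 := sq_abs w.im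
  nlinarith [sq_nonneg (|w.re| - |w.im|)]

theorem rhomb {E : ℂ → ℂ} (hE : Differentiable ℂ E) {η C s : ℝ} (hη : 0 < η) (hC : 1 ≤ C)
    (hs : 2 ≤ s)
    (hb : ∀ w : ℂ, 1 ≤ ‖w‖ → w.im ≠ 0 → ‖E w‖ ≤ C * Real.exp (η * ‖w‖ ^ 2 / |w.im|)) :
    ∀ w : ℂ, ‖w‖ ≤ s / 2 → ‖E w‖ ≤ C * Real.exp (16 * η * s) := by
  have hs0 : 0 < s := by linarith
  obtain ⟨B, hB⟩ : ∃ B, B = 4 * η * s ^ 2 := ⟨_, rfl⟩
  have hB0 : 0 < B := by rw [hB]; positivity
  -- a bound of `E` on the closed disc
  obtain ⟨A, hA0, hA⟩ : ∃ A : ℝ, 0 ≤ A ∧ ∀ w : ℂ, ‖w‖ ≤ s → ‖E w‖ ≤ A := by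
    obtain ⟨A, hA⟩ := (isCompact_closedBall (0 : ℂ) s).exists_bound_of_continuousOn
      hE.continuous.continuousOn
    refine ⟨A, (norm_nonneg (E 0)).trans (hA 0 (mem_closedBall_self hs0.le)), fun w hw => ?_⟩
    exact hA w (by rwa [mem_closedBall_zero_iff])
  obtain ⟨d, hd⟩ : ∃ d, d = B / (4 * (A + 1)) := ⟨_, rfl⟩
  have hd0 : 0 < d := by rw [hd]; positivity
  obtain ⟨T, hT⟩ : ∃ T, T = s + d := ⟨_, rfl⟩
  set D : Set ℂ := {w | |w.re| + |w.im| < s} with hD
  have hre : Continuous (fun w : ℂ => |w.re| + |w.im|) := by fun_prop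
  have hDcl : ∀ w ∈ closure D, |w.re| + |w.im| ≤ s := fun w hw =>
    closure_lt_subset_le hre continuous_const hw
  have hDfr : ∀ w ∈ frontier D, |w.re| + |w.im| = s := fun w hw =>
    frontier_lt_subset_eq hre continuous_const hw
  have hpos : ∀ w : ℂ, |w.re| + |w.im| ≤ s → 0 < ((T : ℂ) - w).re ∧ 0 < ((T : ℂ) + w).re := by
    intro w hw
    have h1 := abs_le.mp (show |w.re| ≤ s by linarith [abs_nonneg w.im])
    simp only [sub_re, add_re, ofReal_re]
    constructor <;> linarith
  have hbdd : Bornology.IsBounded D := by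
    refine (isBounded_closedBall (x := (0 : ℂ)) (r := s)).subset (fun w hw => ?_)
    rw [mem_closedBall_zero_iff]
    exact (Complex.norm_le_abs_re_add_abs_im w).trans (le_of_lt hw)
  set g : ℂ → ℂ := fun w => E w * Complex.exp (-((B : ℂ) * ((T : ℂ) - w)⁻¹) -
    (B : ℂ) * ((T : ℂ) + w)⁻¹) with hg
  have hgn : ∀ w : ℂ, ‖g w‖ = ‖E w‖ * Real.exp (-(B * (((T : ℂ) - w)⁻¹).re) -
      B * (((T : ℂ) + w)⁻¹).re) := by
    intro w
    rw [hg]
    simp only [norm_mul, Complex.norm_exp, sub_re, neg_re, re_ofReal_mul]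
  have hgd : DiffContOnCl ℂ g D := by
    refine DifferentiableOn.diffContOnCl (fun w hw => ?_)
    obtain ⟨p1, p2⟩ := hpos w (hDcl w hw)
    have n1 : (T : ℂ) - w ≠ 0 := fun h => by rw [h] at p1; simp at p1
    have n2 : (T : ℂ) + w ≠ 0 := fun h => by rw [h] at p2; simp at p2
    refine DifferentiableAt.differentiableWithinAt ?_
    refine (hE w).mul (DifferentiableAt.cexp ?_)
    refine DifferentiableAt.sub (DifferentiableAt.neg ?_) ?_
    · exact ((differentiableAt_const _).sub differentiableAt_id).inv n1 |>.const_mul _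
    · exact ((differentiableAt_const _).add differentiableAt_id).inv n2 |>.const_mul _
  have hfr : ∀ w ∈ frontier D, ‖g w‖ ≤ C := by
    intro w hw
    have hw' := hDfr w hw
    obtain ⟨p1, p2⟩ := hpos w hw'.le
    obtain ⟨r, hr⟩ : ∃ r, r = |w.im| := ⟨_, rfl⟩
    have hr0 : 0 ≤ r := hr ▸ abs_nonneg _
    have hrd : 0 < r + d := by linarith
    have hws : ‖w‖ ≤ s := (Complex.norm_le_abs_re_add_abs_im w).trans hw'.le
    have hkey : 1 / (2 * (r + d)) ≤ (((T : ℂ) - w)⁻¹).re + (((T : ℂ) + w)⁻¹).re := by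
      rcases le_total 0 w.re with h | h
      · have e1 : ((T : ℂ) - w).re = r + d := by
          rw [abs_of_nonneg h] at hw'
          simp only [sub_re, ofReal_re]
          linarith
        have e2 : |((T : ℂ) - w).im| ≤ ((T : ℂ) - w).re := by
          rw [e1]
          simp only [sub_im, ofReal_im, zero_sub, abs_neg]
          linarith
        have := reinv_ge p1 e2
        rw [e1] at this
        linarith [reinv_nonneg p2]
      · have e1 : ((T : ℂ) + w).re = r + d := by
          rw [abs_of_nonpos h] at hw'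
          simp only [add_re, ofReal_re]
          linarith
        have e2 : |((T : ℂ) + w).im| ≤ ((T : ℂ) + w).re := by
          rw [e1]
          simp only [add_im, ofReal_im, zero_add]
          linarith
        have := reinv_ge p2 e2
        rw [e1] at this
        linarith [reinv_nonneg p1]
    have hg1 : ‖g w‖ ≤ ‖E w‖ * Real.exp (-(B * (1 / (2 * (r + d))))) := by
      rw [hgn w]
      refine mul_le_mul_of_nonneg_left (Real.exp_le_exp.2 ?_) (norm_nonneg _)
      have := mul_le_mul_of_nonneg_left hkey hB0.le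
      linarith
    refine hg1.trans ?_
    rcases le_or_gt d r with hdr | hdr
    · have hrp : 0 < r := hd0.trans_le hdr
      have h1w : 1 ≤ ‖w‖ := by
        have := abs_re_im w
        rw [hw'] at this
        nlinarith [norm_nonneg w]
      have him : w.im ≠ 0 := by
        intro h
        rw [hr, h, abs_zero] at hrp
        exact lt_irrefl _ hrp
      have h2 := hb w h1w him
      rw [← hr] at h2
      calc ‖E w‖ * Real.exp (-(B * (1 / (2 * (r + d)))))
          ≤ C * Real.exp (η * ‖w‖ ^ 2 / r) * Real.exp (-(B * (1 / (2 * (r + d))))) :=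
            mul_le_mul_of_nonneg_right h2 (Real.exp_pos _).le
        _ = C * Real.exp (η * ‖w‖ ^ 2 / r - B * (1 / (2 * (r + d)))) := by
            rw [mul_assoc, ← Real.exp_add, sub_eq_add_neg]
        _ ≤ C * 1 := by
            refine mul_le_mul_of_nonneg_left ?_ (by linarith)
            rw [Real.exp_le_one_iff, sub_nonpos]
            calc η * ‖w‖ ^ 2 / r ≤ η * s ^ 2 / r := by gcongr
              _ = B / (4 * r) := by
                  rw [hB]
                  field_simp
              _ ≤ B / (2 * (r + d)) := div_le_div_of_nonneg_left hB0.le (by positivity)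
                  (by linarith)
              _ = B * (1 / (2 * (r + d))) := by rw [mul_one_div]
        _ = C := mul_one C
    · have h3 : A + 1 ≤ B * (1 / (2 * (r + d))) := by
        have e : B = 4 * (A + 1) * d := by
          rw [hd]
          field_simp
        rw [mul_one_div, le_div_iff₀ (by positivity), e]
        nlinarith
      calc ‖E w‖ * Real.exp (-(B * (1 / (2 * (r + d)))))
          ≤ A * Real.exp (-(A + 1)) := by
            refine mul_le_mul (hA w hws) (Real.exp_le_exp.2 (by linarith)) (Real.exp_pos _).le hA0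
        _ ≤ 1 := by
            rw [Real.exp_neg, ← div_eq_mul_inv, div_le_one (Real.exp_pos _)]
            have := Real.add_one_le_exp (A + 1)
            linarith
        _ ≤ C := hC
  intro w hw
  have hwD : w ∈ D := by
    have := abs_re_im w
    have h0 : 0 ≤ |w.re| + |w.im| := by positivity
    show |w.re| + |w.im| < s
    have h4 : ‖w‖ ^ 2 ≤ (s / 2) ^ 2 := pow_le_pow_left₀ (norm_nonneg _) hw 2
    nlinarith
  have h5 : ‖g w‖ ≤ C := Complex.norm_le_of_forall_mem_frontier_norm_le hbdd hgd hfr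
    (subset_closure hwD)
  have hT1 : s / 2 ≤ ‖(T : ℂ) - w‖ := by
    have h6 := norm_sub_norm_le (T : ℂ) w
    have h7 : ‖(T : ℂ)‖ = T := by
      rw [Complex.norm_real, Real.norm_of_nonneg (by linarith)]
    rw [h7] at h6
    linarith
  have hT2 : s / 2 ≤ ‖(T : ℂ) + w‖ := by
    have h6 := norm_sub_norm_le (T : ℂ) (-w)
    have h7 : ‖(T : ℂ)‖ = T := by
      rw [Complex.norm_real, Real.norm_of_nonneg (by linarith)]
    rw [h7, norm_neg, sub_neg_eq_add] at h6
    linarith
  have hinv : ∀ ζ : ℂ, s / 2 ≤ ‖ζ‖ → (ζ⁻¹).re ≤ 2 / s := by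
    intro ζ hζ
    refine (Complex.re_le_norm _).trans ?_
    rw [norm_inv]
    calc ‖ζ‖⁻¹ ≤ (s / 2)⁻¹ := inv_anti₀ (by positivity) hζ
      _ = 2 / s := by rw [inv_div]
  have q1 := hinv _ hT1
  have q2 := hinv _ hT2
  rw [hgn w] at h5
  obtain ⟨X, hX⟩ : ∃ X, X = -(B * (((T : ℂ) - w)⁻¹).re) - B * (((T : ℂ) + w)⁻¹).re := ⟨_, rfl⟩
  rw [← hX] at h5
  have hX1 : -(16 * η * s) ≤ X := by
    have e : B * (2 / s) = 8 * η * s := by
      rw [hB]
      field_simp
      ring
    have r1 := mul_le_mul_of_nonneg_left q1 hB0.le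
    have r2 := mul_le_mul_of_nonneg_left q2 hB0.le
    rw [e] at r1 r2
    linarith
  calc ‖E w‖ = ‖E w‖ * Real.exp X * Real.exp (-X) := by
        rw [mul_assoc, ← Real.exp_add, add_neg_cancel, Real.exp_zero, mul_one]
    _ ≤ C * Real.exp (-X) := mul_le_mul_of_nonneg_right h5 (Real.exp_pos _).le
    _ ≤ C * Real.exp (16 * η * s) := by
        refine mul_le_mul_of_nonneg_left (Real.exp_le_exp.2 (by linarith)) (by linarith)

end Pool.Agent.H78E.H92
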