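import Pool.Agent.Helper92_E.CaRem
import Pool.Agent.Helper92_E.CaRhomb

/-!
# CA: assembly
-/

namespace Pool.Agent.H78E.H92

open MeasureTheory Filter Topology Complex Metric Bornology

/-! ### Quadratic growth -/

theorem growth {E : ℂ → ℂ} (hE : Differentiable ℂ E) {M : ℝ} (hM : 0 ≤ M)
    (hlow : ∀ w : ℂ, w.im < 0 → ‖E w‖ ≤ M * ‖w‖ ^ 2 / |w.im|)
    (hmin : ∀ η : ℝ, 0 < η → ∃ C : ℝ, ∀ w, ‖E w‖ ≤ C * Real.exp (η * ‖w‖)) :
    ∀ w, ‖E w‖ ≤ M * (‖w‖ + 2) ^ 2 := by
  set F : ℂ → ℂ := fun ζ => E (Complex.I * ζ - Complex.I) / (ζ + 1) ^ 2 with hF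
  have hne : ∀ ζ : ℂ, 0 ≤ ζ.re → ζ + 1 ≠ 0 := by
    intro ζ hζ h
    have : (ζ + 1).re = 0 := by rw [h]; simp
    simp only [add_re, one_re] at this
    linarith
  have hge : ∀ ζ : ℂ, 0 ≤ ζ.re → 1 ≤ ‖ζ + 1‖ := by
    intro ζ hζ
    refine le_trans ?_ (Complex.re_le_norm _)
    simp only [add_re, one_re]
    linarith
  have hFη : ∀ η : ℝ, 0 < η → ∀ ζ : ℂ, 0 ≤ ζ.re → ‖F ζ * Complex.exp (-(η : ℂ) * ζ)‖ ≤ M := by
    intro η hη ζ hζ
    obtain ⟨C, hC⟩ := hmin η hη
    have hC0 : 0 ≤ C := by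
      have := (norm_nonneg _).trans (hC 0)
      rw [norm_zero, mul_zero, Real.exp_zero, mul_one] at this
      exact this
    have hbd : ∀ ζ : ℂ, 0 ≤ ζ.re → ‖F ζ * Complex.exp (-(η : ℂ) * ζ)‖ ≤
        C * Real.exp (η * (‖ζ‖ + 1)) * Real.exp (-(η * ζ.re)) := by
      intro ζ hζ
      have h1 : ‖Complex.exp (-(η : ℂ) * ζ)‖ = Real.exp (-(η * ζ.re)) := by
        rw [Complex.norm_exp]
        congr 1
        rw [← ofReal_neg, re_ofReal_mul, neg_mul]
      rw [norm_mul, h1]
      refine mul_le_mul_of_nonneg_right ?_ (Real.exp_pos _).le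
      rw [hF]
      simp only [norm_div, norm_pow]
      have h2 : 1 ≤ ‖ζ + 1‖ ^ 2 := one_le_pow₀ (hge ζ hζ)
      refine (div_le_self (norm_nonneg _) h2).trans ((hC _).trans ?_)
      refine mul_le_mul_of_nonneg_left (Real.exp_le_exp.2 (mul_le_mul_of_nonneg_left ?_ hη.le)) hC0
      refine (norm_sub_le _ _).trans ?_
      rw [norm_mul, Complex.norm_I, one_mul]
    refine PhragmenLindelof.right_half_plane_of_bounded_on_real
      (f := fun ζ => F ζ * Complex.exp (-(η : ℂ) * ζ)) ?_ ?_ ?_ ?_ hζ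
    · refine DifferentiableOn.diffContOnCl (fun w hw => ?_)
      have hw' : 0 ≤ w.re := closure_lt_subset_le continuous_const Complex.continuous_re hw
      refine DifferentiableAt.differentiableWithinAt (DifferentiableAt.mul ?_ ?_)
      · refine DifferentiableAt.div ?_ ?_ (pow_ne_zero 2 (hne w hw'))
        · exact DifferentiableAt.comp w (hE _) ((differentiableAt_id.const_mul _).sub_const _)
        · exact (differentiableAt_id.add_const _).pow 2
      · exact (differentiableAt_id.const_mul _).cexp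
    · refine ⟨1, by norm_num, η, ?_⟩
      refine Asymptotics.IsBigO.of_bound (C * Real.exp η) ?_
      rw [eventually_inf_principal]
      refine Filter.Eventually.of_forall (fun w hw => ?_)
      have hw' : 0 < w.re := hw
      refine (hbd w hw'.le).trans ?_
      rw [Real.rpow_one, Real.norm_of_nonneg (Real.exp_pos _).le, mul_assoc C, ← Real.exp_add,
        mul_assoc C, ← Real.exp_add]
      refine mul_le_mul_of_nonneg_left (Real.exp_le_exp.2 ?_) hC0
      have := mul_pos hη hw'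
      linarith
    · refine ⟨C * Real.exp η, ?_⟩
      rw [eventually_map]
      filter_upwards [eventually_ge_atTop (0 : ℝ)] with x hx
      have hx' : 0 ≤ ((x : ℂ)).re := by simpa using hx
      refine (hbd x hx').trans ?_
      rw [mul_assoc, ← Real.exp_add]
      refine mul_le_mul_of_nonneg_left (Real.exp_le_exp.2 ?_) hC0
      rw [ofReal_re, Complex.norm_real, Real.norm_of_nonneg hx]
      linarith
    · intro x
      have h1 : ‖Complex.exp (-(η : ℂ) * ((x : ℂ) * Complex.I))‖ = 1 := by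
        rw [Complex.norm_exp]
        have : (-(η : ℂ) * ((x : ℂ) * Complex.I)).re = 0 := by simp
        rw [this, Real.exp_zero]
      rw [norm_mul, h1, mul_one, hF]
      simp only [norm_div, norm_pow]
      have h2 : Complex.I * ((x : ℂ) * Complex.I) - Complex.I = ⟨-x, -1⟩ := by
        apply Complex.ext <;> simp
      have h3 : ‖((x : ℂ) * Complex.I + 1)‖ ^ 2 = x ^ 2 + 1 := by
        rw [← Complex.normSq_eq_norm_sq, Complex.normSq_apply]
        simp
        ring
      have h4 : ‖(⟨-x, -1⟩ : ℂ)‖ ^ 2 = x ^ 2 + 1 := by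
        rw [← Complex.normSq_eq_norm_sq, Complex.normSq_apply]
        ring
      rw [h2, h3]
      have h5 := hlow ⟨-x, -1⟩ (by norm_num)
      rw [h4] at h5
      rw [div_le_iff₀ (by positivity)]
      simpa using h5
  have hFb : ∀ ζ : ℂ, 0 ≤ ζ.re → ‖F ζ‖ ≤ M := by
    intro ζ hζ
    have h1 : ∀ η : ℝ, 0 < η → ‖F ζ‖ * Real.exp (-(η * ζ.re)) ≤ M := by
      intro η hη
      have := hFη η hη ζ hζ
      rw [norm_mul, Complex.norm_exp, ← ofReal_neg, re_ofReal_mul, neg_mul] at this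
      exact this
    have h2 : Tendsto (fun η : ℝ => ‖F ζ‖ * Real.exp (-(η * ζ.re))) (𝓝[>] 0) (𝓝 ‖F ζ‖) := by
      have hc : Continuous (fun η : ℝ => ‖F ζ‖ * Real.exp (-(η * ζ.re))) := by fun_prop
      have := hc.tendsto 0
      simp only [zero_mul, neg_zero, Real.exp_zero, mul_one] at this
      exact this.mono_left nhdsWithin_le_nhds
    refine le_of_tendsto h2 ?_
    filter_upwards [self_mem_nhdsWithin] with η hη
    exact h1 η hη
  intro w
  rcases le_or_gt (-1) w.im with h | h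
  · have hζ : 0 ≤ (1 - Complex.I * w).re := by
      simp only [sub_re, one_re, mul_re, I_re, I_im, zero_mul, one_mul]
      linarith
    have h1 := hFb _ hζ
    have h2 : Complex.I * (1 - Complex.I * w) - Complex.I = w := by
      have := Complex.I_mul_I
      linear_combination (-w) * this
    rw [hF] at h1
    simp only [norm_div, norm_pow, h2] at h1
    have h3 : 0 < ‖1 - Complex.I * w + 1‖ ^ 2 := by
      have := hge _ hζ
      positivity
    rw [div_le_iff₀ h3] at h1
    refine h1.trans (mul_le_mul_of_nonneg_left ?_ hM)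
    refine pow_le_pow_left₀ (norm_nonneg _) ?_ 2
    have h4 : 1 - Complex.I * w + 1 = 2 - Complex.I * w := by ring
    rw [h4]
    refine (norm_sub_le _ _).trans ?_
    rw [norm_mul, Complex.norm_I, one_mul]
    have : ‖(2 : ℂ)‖ = 2 := by simp
    rw [this, add_comm]
  · have h1 := hlow w (by linarith)
    refine h1.trans ?_
    have h2 : 1 ≤ |w.im| := by
      rw [abs_of_neg (by linarith)]
      linarith
    refine (div_le_self (by positivity) h2).trans (mul_le_mul_of_nonneg_left ?_ hM)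
    refine pow_le_pow_left₀ (norm_nonneg _) ?_ 2
    linarith

/-! ### Liouville -/

theorem linear_of_growth {E : ℂ → ℂ} (hE : Differentiable ℂ E) (h0 : E 0 = 0) {M : ℝ}
    (hM : 0 ≤ M) (hg : ∀ w, ‖E w‖ ≤ M * (‖w‖ + 2) ^ 2)
    (hlow : ∀ w : ℂ, w.im < 0 → ‖E w‖ ≤ M * ‖w‖ ^ 2 / |w.im|) : ∃ b : ℂ, ∀ w, E w = b * w := by
  have hds : ∀ f : ℂ → ℂ, Differentiable ℂ f → Differentiable ℂ (dslope f 0) := by
    intro f hf
    have := (Complex.differentiableOn_dslope (f := f) (s := Set.univ) (c := 0) Filter.univ_mem).2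
      hf.differentiableOn
    exact differentiableOn_univ.1 this
  set E1 := dslope E 0 with hE1
  set E2 := dslope E1 0 with hE2
  have d1 : Differentiable ℂ E1 := hds E hE
  have d2 : Differentiable ℂ E2 := hds E1 d1
  have e1 : ∀ w, w * E1 w = E w := by
    intro w
    have := sub_smul_dslope E 0 w
    rw [sub_zero, smul_eq_mul, h0, sub_zero] at this
    exact this
  have e2 : ∀ w, w * E2 w = E1 w - E1 0 := by
    intro w
    have := sub_smul_dslope E1 0 w
    rw [sub_zero, smul_eq_mul] at this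
    exact this
  -- `E2` is bounded
  have hb : IsBounded (Set.range E2) := by
    obtain ⟨A, hA⟩ := (isCompact_closedBall (0 : ℂ) 1).exists_bound_of_continuousOn
      d2.continuous.continuousOn
    rw [isBounded_iff_forall_norm_le]
    refine ⟨max A (9 * M + ‖E1 0‖), ?_⟩
    rintro _ ⟨w, rfl⟩
    rcases le_or_gt ‖w‖ 1 with h | h
    · exact (hA w (by rwa [mem_closedBall_zero_iff])).trans (le_max_left _ _)
    · refine le_trans ?_ (le_max_right _ _)
      have hw : 0 < ‖w‖ := by linarith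
      have hsq : w * w * E2 w = E w - w * E1 0 := by
        have := e2 w
        calc w * w * E2 w = w * (w * E2 w) := by ring
          _ = w * E1 w - w * E1 0 := by rw [this]; ring
          _ = E w - w * E1 0 := by rw [e1 w]
      have hn : ‖w‖ * ‖w‖ * ‖E2 w‖ ≤ M * (‖w‖ + 2) ^ 2 + ‖w‖ * ‖E1 0‖ := by
        have := congrArg norm hsq
        rw [norm_mul, norm_mul] at this
        rw [this]
        refine (norm_sub_le _ _).trans (add_le_add (hg w) ?_)
        rw [norm_mul]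
      have hbound : M * (‖w‖ + 2) ^ 2 + ‖w‖ * ‖E1 0‖ ≤ ‖w‖ * ‖w‖ * (9 * M + ‖E1 0‖) := by
        have q1 : (‖w‖ + 2) ^ 2 ≤ ‖w‖ * ‖w‖ * 9 := by nlinarith
        have q2 : ‖w‖ ≤ ‖w‖ * ‖w‖ := by nlinarith
        have q3 := mul_le_mul_of_nonneg_left q1 hM
        have q4 := mul_le_mul_of_nonneg_right q2 (norm_nonneg (E1 0))
        linarith
      exact le_of_mul_le_mul_left (hn.trans hbound) (by positivity)
  obtain ⟨c2, hc2⟩ := d2.exists_const_forall_eq_of_bounded hb
  have hform : ∀ w, E w = E1 0 * w + c2 * (w * w) := by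
    intro w
    have h1 := e1 w
    have h2 := e2 w
    rw [hc2 w] at h2
    calc E w = w * E1 w := h1.symm
      _ = w * (E1 0 + w * c2) := by rw [h2]; ring
      _ = _ := by ring
  have hc0 : c2 = 0 := by
    by_contra hne
    have hpos : 0 < ‖c2‖ := norm_pos_iff.2 hne
    obtain ⟨y, hy⟩ : ∃ y : ℝ, y = (M + ‖E1 0‖ + 1) / ‖c2‖ := ⟨_, rfl⟩
    have hy0 : 0 < y := by rw [hy]; positivity
    have h1 := hlow ⟨0, -y⟩ (by simpa using hy0)
    have h2 : ‖(⟨0, -y⟩ : ℂ)‖ = y := by
      have : (⟨0, -y⟩ : ℂ) = -((y : ℂ) * Complex.I) := by apply Complex.ext <;> simp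
      rw [this, norm_neg, norm_mul, Complex.norm_I, mul_one, Complex.norm_real,
        Real.norm_of_nonneg hy0.le]
    have h3 : |(⟨0, -y⟩ : ℂ).im| = y := by
      show |-y| = y
      rw [abs_neg, abs_of_pos hy0]
    rw [h2, h3] at h1
    have h4 : M * y ^ 2 / y = M * y := by field_simp
    rw [h4] at h1
    have h5 : ‖c2‖ * (y * y) ≤ M * y + ‖E1 0‖ * y := by
      have e : c2 * ((⟨0, -y⟩ : ℂ) * ⟨0, -y⟩) = E ⟨0, -y⟩ - E1 0 * ⟨0, -y⟩ := by
        rw [hform ⟨0, -y⟩]
        ring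
      have := congrArg norm e
      rw [norm_mul, norm_mul, h2] at this
      rw [this]
      refine (norm_sub_le _ _).trans (add_le_add h1 ?_)
      rw [norm_mul, h2]
    have h6 : ‖c2‖ * y ≤ M + ‖E1 0‖ := by
      refine le_of_mul_le_mul_right ?_ hy0
      calc ‖c2‖ * y * y = ‖c2‖ * (y * y) := by ring
        _ ≤ M * y + ‖E1 0‖ * y := h5
        _ = (M + ‖E1 0‖) * y := by ring
    rw [hy, mul_div_cancel₀ _ hpos.ne'] at h6
    linarith
  refine ⟨E1 0, fun w => ?_⟩
  rw [hform w, hc0, zero_mul, add_zero]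

/-! ### The behaviour at infinity -/

theorem far_bound {ψ : ℂ → ℂ} {M ρ C : ℝ} {N : ℕ} (hd : ∀ z : ℂ, z ≠ 0 → DifferentiableAt ℂ ψ z)
    (hM : 0 ≤ M) (hC0 : 0 ≤ C) (hup : ∀ z : ℂ, 0 < z.im → ‖ψ z‖ ≤ M / z.im)
    (hinf : ∀ z : ℂ, z.im < 0 → ρ ≤ ‖z‖ → ‖ψ z‖ ≤ C * (1 + ‖z‖) ^ N / |z.im|) :
    ∀ z : ℂ, |ρ| + 3 ≤ ‖z‖ → ‖ψ z‖ ≤ 2 * (M + C) * (2 + ‖z‖) ^ N := by
  intro z hz
  have hρ := abs_nonneg ρ
  have hρ' := le_abs_self ρ
  have hMC : 0 ≤ M + C := by linarith
  have hpow1 : (1 : ℝ) ≤ (2 + ‖z‖) ^ N := one_le_pow₀ (by linarith [norm_nonneg z])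
  rcases le_or_gt 1 |z.im| with h | h
  · rcases le_or_gt 0 z.im with h' | h'
    · rw [abs_of_nonneg h'] at h
      have h1 := hup z (by linarith)
      have h2 : M / z.im ≤ M := div_le_self hM h
      calc ‖ψ z‖ ≤ M := h1.trans h2
        _ ≤ 2 * (M + C) * 1 := by linarith
        _ ≤ _ := mul_le_mul_of_nonneg_left hpow1 (by positivity)
    · have h1 := hinf z h' (by linarith)
      have h2 : C * (1 + ‖z‖) ^ N / |z.im| ≤ C * (1 + ‖z‖) ^ N := div_le_self (by positivity) h
      have h3 : (1 + ‖z‖) ^ N ≤ (2 + ‖z‖) ^ N :=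
        pow_le_pow_left₀ (by positivity) (by linarith) N
      calc ‖ψ z‖ ≤ C * (1 + ‖z‖) ^ N := h1.trans h2
        _ ≤ C * (2 + ‖z‖) ^ N := mul_le_mul_of_nonneg_left h3 hC0
        _ ≤ 2 * (M + C) * (2 + ‖z‖) ^ N := mul_le_mul_of_nonneg_right (by linarith) (by positivity)
  · -- the maximum principle in the disc around the real part
    obtain ⟨x, hx⟩ : ∃ x : ℝ, x = z.re := ⟨_, rfl⟩
    have hzx : |x| ≤ ‖z‖ := by rw [hx]; exact Complex.abs_re_le_norm z
    have hxz : ‖z‖ ≤ |x| + |z.im| := by rw [hx]; exact Complex.norm_le_abs_re_add_abs_im z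
    have hball : ∀ v ∈ closedBall (x : ℂ) 1, |ρ| + 1 ≤ ‖v‖ ∧ ‖v‖ ≤ ‖z‖ + 1 := by
      intro v hv
      rw [mem_closedBall, dist_eq_norm] at hv
      have h1 : ‖(x : ℂ)‖ = |x| := by rw [Complex.norm_real, Real.norm_eq_abs]
      have h2 := norm_sub_norm_le (x : ℂ) v
      rw [h1, norm_sub_rev] at h2
      have h3 := norm_sub_norm_le v (x : ℂ)
      rw [h1] at h3
      constructor <;> linarith
    set f : ℂ → ℂ := fun v => ψ v * ((v - x) ^ 2 - 1) with hf
    have hfd : DiffContOnCl ℂ f (ball (x : ℂ) 1) := by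
      refine DifferentiableOn.diffContOnCl (fun v hv => ?_)
      have hv' := hball v (closure_ball_subset_closedBall hv)
      have hv0 : v ≠ 0 := by
        intro h0
        rw [h0, norm_zero] at hv'
        linarith [hv'.1]
      refine DifferentiableAt.differentiableWithinAt ((hd v hv0).mul ?_)
      exact ((differentiableAt_id.sub_const _).pow 2).sub_const _
    have hfr : ∀ v ∈ frontier (ball (x : ℂ) 1), ‖f v‖ ≤ 2 * (M + C) * (2 + ‖z‖) ^ N := by
      intro v hv
      rw [frontier_ball _ one_ne_zero, mem_sphere, dist_eq_norm] at hv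
      obtain ⟨b1, b2⟩ := hball v (by rw [mem_closedBall, dist_eq_norm, hv])
      have hu : ‖(v - x) ^ 2 - 1‖ = 2 * |v.im| := by
        have h1 : (v - x) * (starRingEnd ℂ) (v - x) = 1 := by
          rw [Complex.mul_conj, Complex.normSq_eq_norm_sq, hv]
          simp
        have h2 : (v - x) ^ 2 - 1 = (v - x) * ((v - x) - (starRingEnd ℂ) (v - x)) := by
          rw [mul_sub, h1, sq]
        have h3 : (v - x) - (starRingEnd ℂ) (v - x) = (2 * v.im : ℝ) * Complex.I := by
          rw [Complex.sub_conj]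
          simp
        rw [h2, h3, norm_mul, norm_mul, hv, Complex.norm_I, Complex.norm_real, Real.norm_eq_abs,
          abs_mul]
        norm_num
      rw [hf]
      simp only
      rw [norm_mul, hu]
      rcases lt_trichotomy v.im 0 with h' | h' | h'
      · have h1 := hinf v h' (by linarith)
        have hi : 0 < |v.im| := abs_pos.2 h'.ne
        calc ‖ψ v‖ * (2 * |v.im|) ≤ C * (1 + ‖v‖) ^ N / |v.im| * (2 * |v.im|) :=
              mul_le_mul_of_nonneg_right h1 (by positivity)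
          _ = 2 * C * (1 + ‖v‖) ^ N := by field_simp
          _ ≤ 2 * (M + C) * (2 + ‖z‖) ^ N := by
              refine mul_le_mul (by linarith) (pow_le_pow_left₀ (by positivity) (by linarith) N)
                (by positivity) (by positivity)
      · rw [h', abs_zero, mul_zero, mul_zero]
        positivity
      · have h1 := hup v h'
        rw [abs_of_pos h']
        calc ‖ψ v‖ * (2 * v.im) ≤ M / v.im * (2 * v.im) :=
              mul_le_mul_of_nonneg_right h1 (by positivity)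
          _ = 2 * M * 1 := by field_simp
          _ ≤ 2 * (M + C) * (2 + ‖z‖) ^ N :=
              mul_le_mul (by linarith) hpow1 (by positivity) (by positivity)
    have hzb : z ∈ ball (x : ℂ) 1 := by
      rw [mem_ball, dist_eq_norm]
      have : z - (x : ℂ) = (z.im : ℂ) * Complex.I := by
        rw [hx]
        apply Complex.ext <;> simp
      rw [this, norm_mul, Complex.norm_I, mul_one, Complex.norm_real, Real.norm_eq_abs]
      exact h
    have h5 := Complex.norm_le_of_forall_mem_frontier_norm_le isBounded_ball hfd hfr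
      (subset_closure hzb)
    refine le_trans ?_ h5
    rw [hf]
    simp only
    rw [norm_mul]
    refine le_mul_of_one_le_right (norm_nonneg _) ?_
    have h6 : (z - (x : ℂ)) ^ 2 - 1 = -(((z.im ^ 2 + 1 : ℝ)) : ℂ) := by
      have : z - (x : ℂ) = (z.im : ℂ) * Complex.I := by
        rw [hx]
        apply Complex.ext <;> simp
      rw [this, mul_pow, Complex.I_sq]
      push_cast
      ring
    rw [h6, norm_neg, Complex.norm_real, Real.norm_of_nonneg (by positivity)]
    nlinarith [sq_nonneg z.im]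

/-! ### The case of the point `0` -/

theorem ca_zero {ψ : ℂ → ℂ} {M ρ : ℝ} {N : ℕ} (hd : ∀ z : ℂ, z ≠ 0 → DifferentiableAt ℂ ψ z)
    (hup : ∀ z : ℂ, 0 < z.im → ‖ψ z‖ ≤ M / z.im)
    (hlo : ∀ η : ℝ, 0 < η → ∃ C : ℝ, ∀ z : ℂ, z.im < 0 →
      ‖ψ z‖ ≤ C * (1 + ‖z‖) ^ N * Real.exp (η / |z.im|))
    (hinf : ∃ C : ℝ, ∀ z : ℂ, z.im < 0 → ρ ≤ ‖z‖ → ‖ψ z‖ ≤ C * (1 + ‖z‖) ^ N / |z.im|) :
    ∃ c : ℂ, ∀ z : ℂ, z ≠ 0 → ψ z = c / z := by
  have hM : 0 ≤ M := by
    have := (norm_nonneg _).trans (hup Complex.I (by simp))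
    simpa using this
  obtain ⟨C0, hC0⟩ := hinf
  have hfar := far_bound (C := |C0|) hd hM (abs_nonneg _) hup (fun z h1 h2 =>
    (hC0 z h1 h2).trans (by
      refine div_le_div_of_nonneg_right (mul_le_mul_of_nonneg_right (le_abs_self _) ?_)
        (abs_nonneg _)
      positivity))
  set E0 : ℂ → ℂ := fun w => ψ w⁻¹ with hE0
  have him : ∀ w : ℂ, w ≠ 0 → (w⁻¹).im = -w.im / ‖w‖ ^ 2 := by
    intro w hw
    rw [Complex.inv_im, Complex.normSq_eq_norm_sq]
  have hE0d : ∀ w : ℂ, w ≠ 0 → DifferentiableAt ℂ E0 w := fun w hw =>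
    DifferentiableAt.comp w (hd _ (inv_ne_zero hw)) (differentiableAt_inv hw)
  have hE00 : Tendsto (fun y : ℝ => E0 (-(Complex.I * (y : ℂ)))) (𝓝[>] 0) (𝓝 0) := by
    rw [tendsto_zero_iff_norm_tendsto_zero]
    have hlim : Tendsto (fun y : ℝ => M * y) (𝓝[>] 0) (𝓝 0) := by
      have hc : Continuous (fun y : ℝ => M * y) := by fun_prop
      have := hc.tendsto 0
      rw [mul_zero] at this
      exact this.mono_left nhdsWithin_le_nhds
    refine squeeze_zero' (Filter.Eventually.of_forall (fun _ => norm_nonneg _)) ?_ hlim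
    filter_upwards [self_mem_nhdsWithin] with y hy
    have hy' : 0 < y := hy
    have h1 : (-(Complex.I * (y : ℂ)))⁻¹ = ((y⁻¹ : ℝ) : ℂ) * Complex.I := by
      rw [inv_neg, mul_inv, Complex.inv_I, ofReal_inv]
      ring
    rw [hE0]
    simp only
    rw [h1]
    have h2 : (((y⁻¹ : ℝ) : ℂ) * Complex.I).im = y⁻¹ := by simp
    have h3 := hup (((y⁻¹ : ℝ) : ℂ) * Complex.I) (by rw [h2]; positivity)
    rw [h2, div_inv_eq_mul] at h3
    exact h3
  have hEn : ∀ᶠ w in 𝓝[≠] (0 : ℂ), ‖w‖ ^ N * ‖E0 w‖ ≤ 2 * (M + |C0|) * 3 ^ N := by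
    have hev : ∀ᶠ w in 𝓝 (0 : ℂ), ‖w‖ < 1 / (|ρ| + 3) := by
      have : Metric.ball (0 : ℂ) (1 / (|ρ| + 3)) ∈ 𝓝 (0 : ℂ) :=
        Metric.ball_mem_nhds _ (by positivity)
      filter_upwards [this] with w hw
      rwa [mem_ball_zero_iff] at hw
    filter_upwards [self_mem_nhdsWithin, hev.filter_mono nhdsWithin_le_nhds] with w hw hw'
    have hw0 : w ≠ 0 := hw
    have hn : 0 < ‖w‖ := norm_pos_iff.2 hw0
    have h1 : |ρ| + 3 ≤ ‖w⁻¹‖ := by
      rw [norm_inv]
      rw [lt_div_iff₀ (by positivity)] at hw'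
      rw [← one_div, le_div_iff₀ hn, mul_comm]
      exact hw'.le
    have h2 := hfar w⁻¹ h1
    have hw1 : ‖w‖ ≤ 1 := by
      refine hw'.le.trans ?_
      rw [div_le_one (by positivity)]
      linarith [abs_nonneg ρ]
    calc ‖w‖ ^ N * ‖E0 w‖ ≤ ‖w‖ ^ N * (2 * (M + |C0|) * (2 + ‖w⁻¹‖) ^ N) :=
          mul_le_mul_of_nonneg_left h2 (by positivity)
      _ = 2 * (M + |C0|) * (‖w‖ * (2 + ‖w⁻¹‖)) ^ N := by rw [mul_pow]; ring
      _ ≤ 2 * (M + |C0|) * 3 ^ N := by
          refine mul_le_mul_of_nonneg_left (pow_le_pow_left₀ (by positivity) ?_ N) (by positivity)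
          rw [norm_inv, mul_add, mul_inv_cancel₀ hn.ne']
          linarith
  have hEd := rem_entire hE0d hE00 N hEn
  set E : ℂ → ℂ := Function.update E0 0 0 with hE
  have hEz : E 0 = 0 := Function.update_self _ _ _
  have hEw : ∀ w : ℂ, w ≠ 0 → E w = ψ w⁻¹ := fun w hw => Function.update_of_ne hw _ _
  have hlow : ∀ w : ℂ, w.im < 0 → ‖E w‖ ≤ M * ‖w‖ ^ 2 / |w.im| := by
    intro w hw
    have hw0 : w ≠ 0 := by rintro rfl; simp at hw
    have hn : 0 < ‖w‖ := norm_pos_iff.2 hw0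
    rw [hEw w hw0]
    have h1 := him w hw0
    have h2 : 0 < (w⁻¹).im := by
      rw [h1]
      exact div_pos (by linarith) (by positivity)
    refine (hup _ h2).trans (le_of_eq ?_)
    rw [h1, abs_of_neg hw, div_div_eq_mul_div]
  have hmin : ∀ η : ℝ, 0 < η → ∃ C : ℝ, ∀ w, ‖E w‖ ≤ C * Real.exp (η * ‖w‖) := by
    intro η hη
    obtain ⟨η', hη'⟩ : ∃ η', η' = η / 32 := ⟨_, rfl⟩
    have hη'0 : 0 < η' := by rw [hη']; positivity
    obtain ⟨Cη, hCη⟩ := hlo η' hη'0
    obtain ⟨K, hK⟩ : ∃ K, K = |Cη| * 2 ^ N + M / η' + 1 := ⟨_, rfl⟩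
    have hK1 : 1 ≤ K := by
      rw [hK]
      have : 0 ≤ |Cη| * 2 ^ N := by positivity
      have : 0 ≤ M / η' := by positivity
      linarith
    have hb : ∀ w : ℂ, 1 ≤ ‖w‖ → w.im ≠ 0 → ‖E w‖ ≤ K * Real.exp (η' * ‖w‖ ^ 2 / |w.im|) := by
      intro w hw1 hwi
      have hw0 : w ≠ 0 := by rintro rfl; simp at hwi
      have hi : 0 < |w.im| := abs_pos.2 hwi
      rcases lt_or_gt_of_ne hwi with h | h
      · refine (hlow w h).trans ?_
        have h1 : M * ‖w‖ ^ 2 / |w.im| = M / η' * (η' * ‖w‖ ^ 2 / |w.im|) := by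
          field_simp
        have h2 : η' * ‖w‖ ^ 2 / |w.im| ≤ Real.exp (η' * ‖w‖ ^ 2 / |w.im|) := by
          have := Real.add_one_le_exp (η' * ‖w‖ ^ 2 / |w.im|)
          linarith
        rw [h1]
        refine mul_le_mul ?_ h2 (by positivity) (by linarith)
        rw [hK]
        have : 0 ≤ |Cη| * 2 ^ N := by positivity
        linarith
      · rw [hEw w hw0]
        have h1 := him w hw0
        have hn : 0 < ‖w‖ := norm_pos_iff.2 hw0
        have h2 : (w⁻¹).im < 0 := by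
          rw [h1]
          exact div_neg_of_neg_of_pos (by linarith) (by positivity)
        have h3 : η' / |(w⁻¹).im| = η' * ‖w‖ ^ 2 / |w.im| := by
          rw [h1, abs_div, abs_neg, abs_of_pos (show (0 : ℝ) < ‖w‖ ^ 2 by positivity),
            div_div_eq_mul_div]
        have h4 := hCη _ h2
        rw [h3] at h4
        refine h4.trans (mul_le_mul_of_nonneg_right ?_ (Real.exp_pos _).le)
        have h5 : ‖w⁻¹‖ ≤ 1 := by
          rw [norm_inv]
          exact inv_le_one_of_one_le₀ hw1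
        calc Cη * (1 + ‖w⁻¹‖) ^ N ≤ |Cη| * (1 + ‖w⁻¹‖) ^ N :=
              mul_le_mul_of_nonneg_right (le_abs_self _) (by positivity)
          _ ≤ |Cη| * 2 ^ N := by
              refine mul_le_mul_of_nonneg_left (pow_le_pow_left₀ (by positivity) ?_ N)
                (abs_nonneg _)
              linarith
          _ ≤ K := by
              rw [hK]
              have : 0 ≤ M / η' := by positivity
              linarith
    refine ⟨K * Real.exp η, fun w => ?_⟩
    have h1 := rhomb (s := 2 + 2 * ‖w‖) hEd hη'0 hK1 (by linarith [norm_nonneg w]) hb w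
      (by linarith)
    refine h1.trans (le_of_eq ?_)
    rw [mul_assoc K, ← Real.exp_add, hη']
    congr 2
    ring
  obtain ⟨b, hb⟩ := linear_of_growth hEd hEz hM (growth hEd hM hlow hmin) hlow
  refine ⟨b, fun z hz => ?_⟩
  have h1 := hb z⁻¹
  rw [hEw _ (inv_ne_zero hz), inv_inv] at h1
  rw [h1, div_eq_mul_inv]

theorem ca : CAStmt := by
  intro ψ x0 M ρ N hd hup hlo hinf
  have hop : IsOpen {z : ℂ | z ≠ (x0 : ℂ)} := isOpen_ne
  have key : ∀ z : ℂ, 1 + ‖z + (x0 : ℂ)‖ ≤ (1 + |x0|) * (1 + ‖z‖) := by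
    intro z
    have h1 := norm_add_le z (x0 : ℂ)
    rw [Complex.norm_real, Real.norm_eq_abs] at h1
    nlinarith [mul_nonneg (abs_nonneg x0) (norm_nonneg z)]
  have hpow : ∀ (C : ℝ) (z : ℂ), C * (1 + ‖z + (x0 : ℂ)‖) ^ N ≤
      |C| * (1 + |x0|) ^ N * (1 + ‖z‖) ^ N := by
    intro C z
    calc C * (1 + ‖z + (x0 : ℂ)‖) ^ N ≤ |C| * (1 + ‖z + (x0 : ℂ)‖) ^ N :=
          mul_le_mul_of_nonneg_right (le_abs_self _) (by positivity)
      _ ≤ |C| * ((1 + |x0|) * (1 + ‖z‖)) ^ N :=
          mul_le_mul_of_nonneg_left (pow_le_pow_left₀ (by positivity) (key z) N) (abs_nonneg _)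
      _ = _ := by rw [mul_pow]; ring
  have him : ∀ z : ℂ, (z + (x0 : ℂ)).im = z.im := by intro z; simp
  obtain ⟨c, hc⟩ := ca_zero (ψ := fun z => ψ (z + (x0 : ℂ))) (M := M) (ρ := ρ + |x0|) (N := N)
    (fun z hz => by
      have h1 : z + (x0 : ℂ) ∈ {z : ℂ | z ≠ (x0 : ℂ)} := by
        intro h
        apply hz
        simpa using h
      have h2 := hd.differentiableAt (hop.mem_nhds h1)
      exact DifferentiableAt.comp z h2 (differentiableAt_id.add_const _))
    (fun z hz => by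
      have := hup (z + (x0 : ℂ)) (by rw [him]; exact hz)
      rwa [him] at this)
    (fun η hη => by
      obtain ⟨C, hC⟩ := hlo η hη
      refine ⟨|C| * (1 + |x0|) ^ N, fun z hz => ?_⟩
      have := hC (z + (x0 : ℂ)) (by rw [him]; exact hz)
      rw [him] at this
      exact this.trans (mul_le_mul_of_nonneg_right (hpow C z) (Real.exp_pos _).le))
    (by
      obtain ⟨C, hC⟩ := hinf
      refine ⟨|C| * (1 + |x0|) ^ N, fun z hz hzρ => ?_⟩
      have h1 : ρ ≤ ‖z + (x0 : ℂ)‖ := by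
        have h2 := norm_sub_norm_le z (-(x0 : ℂ))
        rw [norm_neg, Complex.norm_real, Real.norm_eq_abs, sub_neg_eq_add] at h2
        linarith
      have := hC (z + (x0 : ℂ)) (by rw [him]; exact hz) h1
      rw [him] at this
      exact this.trans (div_le_div_of_nonneg_right (hpow C z) (abs_nonneg _)))
  refine ⟨c, fun z hz => ?_⟩
  have := hc (z - (x0 : ℂ)) (sub_ne_zero.2 hz)
  simpa using this

end Pool.Agent.H78E.H92
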