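import Pool.Agent.Helper92_E.Ca
import Pool.Agent.Helper78_E.Stmts4

/-!
# CA2: as CA, with weaker bounds at infinity
-/

namespace Pool.Agent.H78E.H92

open MeasureTheory Filter Topology Complex Metric Bornology

/-- the rhombus argument, local version -/
theorem rhombL {E : ℂ → ℂ} {B0 C s : ℝ} (hB0 : 0 < B0) (hC : 1 ≤ C) (hs0 : 0 < s)
    (hE : ∀ w : ℂ, ‖w‖ ≤ s → DifferentiableAt ℂ E w)
    (hb : ∀ w : ℂ, ‖w‖ ≤ s → w.im ≠ 0 → ‖E w‖ ≤ C * Real.exp (B0 / |w.im|)) :
    ∀ w : ℂ, ‖w‖ ≤ s / 2 → ‖E w‖ ≤ C * Real.exp (16 * B0 / s) := by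
  obtain ⟨B, hB⟩ : ∃ B, B = 4 * B0 := ⟨_, rfl⟩
  have hBp : 0 < B := by rw [hB]; positivity
  -- a bound of `E` on the closed disc
  obtain ⟨A, hA0, hA⟩ : ∃ A : ℝ, 0 ≤ A ∧ ∀ w : ℂ, ‖w‖ ≤ s → ‖E w‖ ≤ A := by
    obtain ⟨A, hA⟩ := (isCompact_closedBall (0 : ℂ) s).exists_bound_of_continuousOn (f := E)
      (fun w hw => (hE w (by rwa [mem_closedBall_zero_iff] at hw)).continuousAt.continuousWithinAt)
    refine ⟨A, (norm_nonneg (E 0)).trans (hA 0 (mem_closedBall_self hs0.le)), fun w hw => ?_⟩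
    exact hA w (by rwa [mem_closedBall_zero_iff])
  obtain ⟨d, hd⟩ : ∃ d, d = B / (4 * (A + 1)) := ⟨_, rfl⟩
  have hd0 : 0 < d := by rw [hd]; positivity
  obtain ⟨T, hT⟩ : ∃ T, T = s + d := ⟨_, rfl⟩
  set D : Set ℂ := {w | |w.re| + |w.im| < s} with hD
  have hre : Continuous (fun w : ℂ => |w.re| + |w.im|) := by fun_prop
  have hDcl : ∀ w ∈ closure D, |w.re| + |w.im| ≤ s := fun w hw =>
    closure_lt_subset_le hre continuous_const hw
  have hDfr : ∀ w ∈ frontier D, |w.re| + |w.im| = s := fun w hw =>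
    frontier_lt_subset_eq hre continuous_const hw
  have hpos : ∀ w : ℂ, |w.re| + |w.im| ≤ s → 0 < ((T : ℂ) - w).re ∧ 0 < ((T : ℂ) + w).re := by
    intro w hw
    have h1 := abs_le.mp (show |w.re| ≤ s by linarith [abs_nonneg w.im])
    simp only [sub_re, add_re, ofReal_re]
    constructor <;> linarith
  have hbdd : Bornology.IsBounded D := by
    refine (isBounded_closedBall (x := (0 : ℂ)) (r := s)).subset (fun w hw => ?_)
    rw [mem_closedBall_zero_iff]
    exact (Complex.norm_le_abs_re_add_abs_im w).trans (le_of_lt hw)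
  set g : ℂ → ℂ := fun w => E w * Complex.exp (-((B : ℂ) * ((T : ℂ) - w)⁻¹) -
    (B : ℂ) * ((T : ℂ) + w)⁻¹) with hg
  have hgn : ∀ w : ℂ, ‖g w‖ = ‖E w‖ * Real.exp (-(B * (((T : ℂ) - w)⁻¹).re) -
      B * (((T : ℂ) + w)⁻¹).re) := by
    intro w
    rw [hg]
    simp only [norm_mul, Complex.norm_exp, sub_re, neg_re, re_ofReal_mul]
  have hgd : DiffContOnCl ℂ g D := by
    refine DifferentiableOn.diffContOnCl (fun w hw => ?_)
    obtain ⟨p1, p2⟩ := hpos w (hDcl w hw)
    have n1 : (T : ℂ) - w ≠ 0 := fun h => by rw [h] at p1; simp at p1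
    have n2 : (T : ℂ) + w ≠ 0 := fun h => by rw [h] at p2; simp at p2
    refine DifferentiableAt.differentiableWithinAt ?_
    refine (hE w ((Complex.norm_le_abs_re_add_abs_im w).trans (hDcl w hw))).mul
      (DifferentiableAt.cexp ?_)
    refine DifferentiableAt.sub (DifferentiableAt.neg ?_) ?_
    · exact ((differentiableAt_const _).sub differentiableAt_id).inv n1 |>.const_mul _
    · exact ((differentiableAt_const _).add differentiableAt_id).inv n2 |>.const_mul _
  have hfr : ∀ w ∈ frontier D, ‖g w‖ ≤ C := by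
    intro w hw
    have hw' := hDfr w hw
    obtain ⟨p1, p2⟩ := hpos w hw'.le
    obtain ⟨r, hr⟩ : ∃ r, r = |w.im| := ⟨_, rfl⟩
    have hr0 : 0 ≤ r := hr ▸ abs_nonneg _
    have hrd : 0 < r + d := by linarith
    have hws : ‖w‖ ≤ s := (Complex.norm_le_abs_re_add_abs_im w).trans hw'.le
    have hkey : 1 / (2 * (r + d)) ≤ (((T : ℂ) - w)⁻¹).re + (((T : ℂ) + w)⁻¹).re := by
      rcases le_total 0 w.re with h | h
      · have e1 : ((T : ℂ) - w).re = r + d := by
          rw [abs_of_nonneg h] at hw'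
          simp only [sub_re, ofReal_re]
          linarith
        have e2 : |((T : ℂ) - w).im| ≤ ((T : ℂ) - w).re := by
          rw [e1]
          simp only [sub_im, ofReal_im, zero_sub, abs_neg]
          linarith
        have := reinv_ge p1 e2
        rw [e1] at this
        linarith [reinv_nonneg p2]
      · have e1 : ((T : ℂ) + w).re = r + d := by
          rw [abs_of_nonpos h] at hw'
          simp only [add_re, ofReal_re]
          linarith
        have e2 : |((T : ℂ) + w).im| ≤ ((T : ℂ) + w).re := by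
          rw [e1]
          simp only [add_im, ofReal_im, zero_add]
          linarith
        have := reinv_ge p2 e2
        rw [e1] at this
        linarith [reinv_nonneg p1]
    have hg1 : ‖g w‖ ≤ ‖E w‖ * Real.exp (-(B * (1 / (2 * (r + d))))) := by
      rw [hgn w]
      refine mul_le_mul_of_nonneg_left (Real.exp_le_exp.2 ?_) (norm_nonneg _)
      have := mul_le_mul_of_nonneg_left hkey hBp.le
      linarith
    refine hg1.trans ?_
    rcases le_or_gt d r with hdr | hdr
    · have hrp : 0 < r := hd0.trans_le hdr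
      have him : w.im ≠ 0 := by
        intro h
        rw [hr, h, abs_zero] at hrp
        exact lt_irrefl _ hrp
      have h2 := hb w hws him
      rw [← hr] at h2
      calc ‖E w‖ * Real.exp (-(B * (1 / (2 * (r + d)))))
          ≤ C * Real.exp (B0 / r) * Real.exp (-(B * (1 / (2 * (r + d))))) :=
            mul_le_mul_of_nonneg_right h2 (Real.exp_pos _).le
        _ = C * Real.exp (B0 / r - B * (1 / (2 * (r + d)))) := by
            rw [mul_assoc, ← Real.exp_add, sub_eq_add_neg]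
        _ ≤ C * 1 := by
            refine mul_le_mul_of_nonneg_left ?_ (by linarith)
            rw [Real.exp_le_one_iff, sub_nonpos]
            calc B0 / r = B / (4 * r) := by
                  rw [hB]
                  field_simp
              _ ≤ B / (2 * (r + d)) := div_le_div_of_nonneg_left hBp.le (by positivity)
                  (by linarith)
              _ = B * (1 / (2 * (r + d))) := by rw [mul_one_div]
        _ = C := mul_one C
    · have h3 : A + 1 ≤ B * (1 / (2 * (r + d))) := by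
        have e : B = 4 * (A + 1) * d := by
          rw [hd]
          field_simp
        rw [mul_one_div, le_div_iff₀ (by positivity), e]
        nlinarith
      calc ‖E w‖ * Real.exp (-(B * (1 / (2 * (r + d)))))
          ≤ A * Real.exp (-(A + 1)) := by
            refine mul_le_mul (hA w hws) (Real.exp_le_exp.2 (by linarith)) (Real.exp_pos _).le hA0
        _ ≤ 1 := by
            rw [Real.exp_neg, ← div_eq_mul_inv, div_le_one (Real.exp_pos _)]
            have := Real.add_one_le_exp (A + 1)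
            linarith
        _ ≤ C := hC
  intro w hw
  have hwD : w ∈ D := by
    have := abs_re_im w
    have h0 : 0 ≤ |w.re| + |w.im| := by positivity
    show |w.re| + |w.im| < s
    have h4 : ‖w‖ ^ 2 ≤ (s / 2) ^ 2 := pow_le_pow_left₀ (norm_nonneg _) hw 2
    nlinarith
  have h5 : ‖g w‖ ≤ C := Complex.norm_le_of_forall_mem_frontier_norm_le hbdd hgd hfr
    (subset_closure hwD)
  have hT1 : s / 2 ≤ ‖(T : ℂ) - w‖ := by
    have h6 := norm_sub_norm_le (T : ℂ) w
    have h7 : ‖(T : ℂ)‖ = T := by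
      rw [Complex.norm_real, Real.norm_of_nonneg (by linarith)]
    rw [h7] at h6
    linarith
  have hT2 : s / 2 ≤ ‖(T : ℂ) + w‖ := by
    have h6 := norm_sub_norm_le (T : ℂ) (-w)
    have h7 : ‖(T : ℂ)‖ = T := by
      rw [Complex.norm_real, Real.norm_of_nonneg (by linarith)]
    rw [h7, norm_neg, sub_neg_eq_add] at h6
    linarith
  have hinv : ∀ ζ : ℂ, s / 2 ≤ ‖ζ‖ → (ζ⁻¹).re ≤ 2 / s := by
    intro ζ hζ
    refine (Complex.re_le_norm _).trans ?_
    rw [norm_inv]
    calc ‖ζ‖⁻¹ ≤ (s / 2)⁻¹ := inv_anti₀ (by positivity) hζ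
      _ = 2 / s := by rw [inv_div]
  have q1 := hinv _ hT1
  have q2 := hinv _ hT2
  rw [hgn w] at h5
  obtain ⟨X, hX⟩ : ∃ X, X = -(B * (((T : ℂ) - w)⁻¹).re) - B * (((T : ℂ) + w)⁻¹).re := ⟨_, rfl⟩
  rw [← hX] at h5
  have hX1 : -(16 * B0 / s) ≤ X := by
    have e : B * (2 / s) = 8 * B0 / s := by
      rw [hB]
      ring
    have e2 : 16 * B0 / s = 8 * B0 / s + 8 * B0 / s := by ring
    have r1 := mul_le_mul_of_nonneg_left q1 hBp.le
    have r2 := mul_le_mul_of_nonneg_left q2 hBp.le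
    rw [e] at r1 r2
    linarith
  calc ‖E w‖ = ‖E w‖ * Real.exp X * Real.exp (-X) := by
        rw [mul_assoc, ← Real.exp_add, add_neg_cancel, Real.exp_zero, mul_one]
    _ ≤ C * Real.exp (-X) := mul_le_mul_of_nonneg_right h5 (Real.exp_pos _).le
    _ ≤ C * Real.exp (16 * B0 / s) := by
        refine mul_le_mul_of_nonneg_left (Real.exp_le_exp.2 (by linarith)) (by linarith)


/-! ### The multiplier -/

theorem pow_big {C c : ℝ} (hC : 0 ≤ C) (hc : 0 < c) :
    ∃ T : ℝ, 3 ≤ T ∧ ∀ t : ℝ, T ≤ t → C * Real.sqrt (1 + t) ≤ c * (t - 2) ^ (3 / 4 : ℝ) := by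
  obtain ⟨X, hX⟩ : ∃ X, X = 2 * C / c := ⟨_, rfl⟩
  have hX0 : 0 ≤ X := by rw [hX]; positivity
  refine ⟨5 + X ^ 4, by have : 0 ≤ X ^ 4 := by positivity
                        linarith, fun t ht => ?_⟩
  obtain ⟨u, hu⟩ : ∃ u, u = t - 2 := ⟨_, rfl⟩
  have h4 : 0 ≤ X ^ 4 := by positivity
  have hu3 : 3 ≤ u := by linarith
  have hu0 : 0 ≤ u := by linarith
  rw [← hu]
  have h1 : Real.sqrt (1 + t) ≤ 2 * Real.sqrt u := by
    have : (2 : ℝ) = Real.sqrt 4 := by
      rw [show (4 : ℝ) = 2 ^ 2 by norm_num, Real.sqrt_sq (by norm_num)]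
    rw [this, ← Real.sqrt_mul (by norm_num)]
    exact Real.sqrt_le_sqrt (by linarith)
  have h2 : u ^ (3 / 4 : ℝ) = Real.sqrt u * u ^ (1 / 4 : ℝ) := by
    rw [Real.sqrt_eq_rpow, ← Real.rpow_add (by linarith)]
    norm_num
  have h3 : X ≤ u ^ (1 / 4 : ℝ) := by
    have : X = (X ^ 4) ^ (1 / 4 : ℝ) := by
      rw [← Real.rpow_natCast, ← Real.rpow_mul hX0]
      norm_num
    rw [this]
    exact Real.rpow_le_rpow h4 (by linarith) (by norm_num)
  have h5 : 2 * C = c * X := by
    rw [hX]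
    field_simp
  calc C * Real.sqrt (1 + t) ≤ C * (2 * Real.sqrt u) := mul_le_mul_of_nonneg_left h1 hC
    _ = c * (Real.sqrt u * X) := by
        have : C * (2 * Real.sqrt u) = (2 * C) * Real.sqrt u := by ring
        rw [this, h5]
        ring
    _ ≤ c * (Real.sqrt u * u ^ (1 / 4 : ℝ)) := by
        refine mul_le_mul_of_nonneg_left (mul_le_mul_of_nonneg_left h3 (Real.sqrt_nonneg _)) hc.le
    _ = c * u ^ (3 / 4 : ℝ) := by rw [h2]

/-- the exponent of the multiplier -/
noncomputable def mu (z : ℂ) : ℂ := (Complex.I * z + 2) ^ ((3 / 4 : ℝ) : ℂ)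

theorem mu_re {z : ℂ} (hz : z.im ≤ 1) :
    Real.cos (3 * Real.pi / 8) * ‖Complex.I * z + 2‖ ^ (3 / 4 : ℝ) ≤ (mu z).re := by
  have hre : 0 < (Complex.I * z + 2).re := by
    simp only [add_re, mul_re, I_re, I_im, zero_mul, one_mul]
    norm_num
    linarith
  have harg : |arg (Complex.I * z + 2)| < Real.pi / 2 := abs_arg_lt_pi_div_two_iff.2 (Or.inl hre)
  unfold mu
  rw [Complex.cpow_ofReal_re, mul_comm]
  refine mul_le_mul_of_nonneg_left ?_ (by positivity)
  rw [← Real.cos_abs (arg (Complex.I * z + 2) * (3 / 4))]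
  refine Real.cos_le_cos_of_nonneg_of_le_pi (abs_nonneg _) ?_ ?_
  · have := Real.pi_pos
    linarith
  · rw [abs_mul, abs_of_pos (show (0 : ℝ) < 3 / 4 by norm_num)]
    linarith

theorem cos_pos' : 0 < Real.cos (3 * Real.pi / 8) := by
  have := Real.pi_pos
  exact Real.cos_pos_of_mem_Ioo ⟨by linarith, by linarith⟩

theorem mu_diff {z : ℂ} (hz : z.im ≤ 1) : DifferentiableAt ℂ mu z := by
  unfold mu
  refine DifferentiableAt.cpow_const ((differentiableAt_id.const_mul _).add_const _) ?_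
  left
  simp only [add_re, mul_re, I_re, I_im, zero_mul, one_mul]
  norm_num
  linarith

theorem mu_re_nonneg {z : ℂ} (hz : z.im ≤ 1) : 0 ≤ (mu z).re :=
  le_trans (mul_nonneg cos_pos'.le (by positivity)) (mu_re hz)

theorem mu_re_big {z : ℂ} (hz : z.im ≤ 1) (h2 : 2 ≤ ‖z‖) :
    Real.cos (3 * Real.pi / 8) * (‖z‖ - 2) ^ (3 / 4 : ℝ) ≤ (mu z).re := by
  refine le_trans (mul_le_mul_of_nonneg_left ?_ cos_pos'.le) (mu_re hz)
  refine Real.rpow_le_rpow (by linarith) ?_ (by norm_num)
  have h1 := norm_sub_norm_le (Complex.I * z) (-2)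
  rw [norm_mul, Complex.norm_I, one_mul, norm_neg, sub_neg_eq_add] at h1
  have h3 : ‖(2 : ℂ)‖ = 2 := by simp
  rw [h3] at h1
  exact h1

/-! ### Phragmén–Lindelöf in a half-plane without a disc -/

theorem pl_bound {ψ : ℂ → ℂ} {R C1 K : ℝ} (hR : 0 < R) (hC1 : 0 ≤ C1) (hK : 1 ≤ K)
    (hd : ∀ z : ℂ, R ≤ ‖z‖ → DifferentiableAt ℂ ψ z)
    (hgr : ∀ z : ℂ, R ≤ ‖z‖ → z.im ≤ 1 → ‖ψ z‖ ≤ Real.exp (C1 * Real.sqrt (1 + ‖z‖)))
    (htop : ∀ z : ℂ, R ≤ ‖z‖ → z.im = 1 → ‖ψ z‖ ≤ K)
    (hcirc : ∀ z : ℂ, ‖z‖ = R → ‖ψ z‖ ≤ K) :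
    ∀ z : ℂ, R < ‖z‖ → z.im < 1 → ‖ψ z‖ ≤ K := by
  intro z hzR hz1
  have hε : ∀ ε : ℝ, 0 < ε → ‖ψ z‖ * Real.exp (-(ε * (mu z).re)) ≤ K := by
    intro ε hε
    obtain ⟨T, hT3, hT⟩ := pow_big hC1 (mul_pos hε cos_pos')
    obtain ⟨R', hR'⟩ : ∃ R', R' = max (‖z‖ + 1) T := ⟨_, rfl⟩
    have hR'1 : ‖z‖ < R' := by rw [hR']; exact lt_of_lt_of_le (by linarith) (le_max_left _ _)
    have hR'T : T ≤ R' := by rw [hR']; exact le_max_right _ _
    set g : ℂ → ℂ := fun z => ψ z * Complex.exp (-((ε : ℂ) * mu z)) with hg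
    have hgn : ∀ z : ℂ, ‖g z‖ = ‖ψ z‖ * Real.exp (-(ε * (mu z).re)) := by
      intro z
      rw [hg]
      simp only [norm_mul, Complex.norm_exp, neg_re, re_ofReal_mul]
    set U : Set ℂ := {z | z.im < 1 ∧ R < ‖z‖ ∧ ‖z‖ < R'} with hU
    have hUo : IsOpen U :=
      (isOpen_lt Complex.continuous_im continuous_const).inter
        ((isOpen_lt continuous_const continuous_norm).inter
          (isOpen_lt continuous_norm continuous_const))
    have hcl : ∀ w ∈ closure U, w.im ≤ 1 ∧ R ≤ ‖w‖ ∧ ‖w‖ ≤ R' := by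
      have hc : IsClosed {w : ℂ | w.im ≤ 1 ∧ R ≤ ‖w‖ ∧ ‖w‖ ≤ R'} :=
        (isClosed_le Complex.continuous_im continuous_const).inter
          ((isClosed_le continuous_const continuous_norm).inter
            (isClosed_le continuous_norm continuous_const))
      intro w hw
      exact hc.closure_subset_iff.2 (fun v hv => ⟨hv.1.le, hv.2.1.le, hv.2.2.le⟩) hw
    have hbdd : Bornology.IsBounded U := by
      refine (isBounded_closedBall (x := (0 : ℂ)) (r := R')).subset (fun w hw => ?_)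
      rw [mem_closedBall_zero_iff]
      exact hw.2.2.le
    have hgd : DiffContOnCl ℂ g U := by
      refine DifferentiableOn.diffContOnCl (fun w hw => ?_)
      obtain ⟨h1, h2, h3⟩ := hcl w hw
      refine DifferentiableAt.differentiableWithinAt ((hd w h2).mul (DifferentiableAt.cexp ?_))
      exact ((mu_diff h1).const_mul _).neg
    have hfr : ∀ w ∈ frontier U, ‖g w‖ ≤ K := by
      intro w hw
      obtain ⟨h1, h2, h3⟩ := hcl w (frontier_subset_closure hw)
      have hnU : w ∉ U := by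
        rw [hUo.frontier_eq] at hw
        exact hw.2
      have hle : Real.exp (-(ε * (mu w).re)) ≤ 1 := by
        rw [Real.exp_le_one_iff, neg_nonpos]
        exact mul_nonneg hε.le (mu_re_nonneg h1)
      rw [hgn w]
      by_cases e1 : w.im = 1
      · calc ‖ψ w‖ * Real.exp (-(ε * (mu w).re)) ≤ K * 1 :=
              mul_le_mul (htop w h2 e1) hle (Real.exp_pos _).le (by linarith)
          _ = K := mul_one K
      by_cases e2 : ‖w‖ = R
      · calc ‖ψ w‖ * Real.exp (-(ε * (mu w).re)) ≤ K * 1 :=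
              mul_le_mul (hcirc w e2) hle (Real.exp_pos _).le (by linarith)
          _ = K := mul_one K
      have e3 : ‖w‖ = R' := by
        by_contra h
        exact hnU ⟨lt_of_le_of_ne h1 e1, lt_of_le_of_ne h2 (Ne.symm e2), lt_of_le_of_ne h3 h⟩
      have h4 := hgr w h2 h1
      have h5 := mu_re_big h1 (by rw [e3]; linarith)
      have h6 := hT ‖w‖ (by rw [e3]; exact hR'T)
      calc ‖ψ w‖ * Real.exp (-(ε * (mu w).re))
          ≤ Real.exp (C1 * Real.sqrt (1 + ‖w‖)) * Real.exp (-(ε * (mu w).re)) :=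
            mul_le_mul_of_nonneg_right h4 (Real.exp_pos _).le
        _ = Real.exp (C1 * Real.sqrt (1 + ‖w‖) - ε * (mu w).re) := by
            rw [← Real.exp_add, sub_eq_add_neg]
        _ ≤ 1 := by
            rw [Real.exp_le_one_iff, sub_nonpos]
            refine h6.trans ?_
            rw [mul_assoc]
            exact mul_le_mul_of_nonneg_left h5 hε.le
        _ ≤ K := hK
    have h5 : ‖g z‖ ≤ K := Complex.norm_le_of_forall_mem_frontier_norm_le hbdd hgd hfr
      (subset_closure ⟨hz1, hzR, hR'1⟩)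
    rwa [hgn z] at h5
  have h2 : Tendsto (fun ε : ℝ => ‖ψ z‖ * Real.exp (-(ε * (mu z).re))) (𝓝[>] 0) (𝓝 ‖ψ z‖) := by
    have hc : Continuous (fun ε : ℝ => ‖ψ z‖ * Real.exp (-(ε * (mu z).re))) := by fun_prop
    have := hc.tendsto 0
    simp only [zero_mul, neg_zero, Real.exp_zero, mul_one] at this
    exact this.mono_left nhdsWithin_le_nhds
  refine le_of_tendsto h2 ?_
  filter_upwards [self_mem_nhdsWithin] with ε hε'
  exact hε ε hε'

/-! ### CA2 -/

theorem ca2 : CA2Stmt := by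
  intro ψ x0 M hd hup hlo hinf
  have hop : IsOpen {z : ℂ | z ≠ (x0 : ℂ)} := isOpen_ne
  have hdz : ∀ z : ℂ, |x0| < ‖z‖ → DifferentiableAt ℂ ψ z := by
    intro z hz
    refine hd.differentiableAt (hop.mem_nhds ?_)
    rintro rfl
    rw [Complex.norm_real, Real.norm_eq_abs] at hz
    exact lt_irrefl _ hz
  have hM : 0 ≤ M := by
    have := (norm_nonneg _).trans (hup Complex.I (by simp))
    simpa using this
  obtain ⟨C, hC⟩ := hinf
  obtain ⟨C', hC'⟩ : ∃ C', C' = |C| + M + 1 := ⟨_, rfl⟩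
  have hC'1 : 1 ≤ C' := by
    rw [hC']
    linarith [abs_nonneg C]
  -- bound in the lower half-plane
  have hlow : ∀ z : ℂ, z.im < 0 → ‖ψ z‖ ≤
      Real.exp (C' * Real.sqrt (1 + ‖z‖) * (1 + 1 / |z.im|)) := by
    intro z hz
    refine (hC z hz).trans (Real.exp_le_exp.2 ?_)
    refine mul_le_mul_of_nonneg_right (mul_le_mul_of_nonneg_right ?_ (Real.sqrt_nonneg _))
      (by positivity)
    rw [hC']
    linarith [le_abs_self C]
  have hMe : M ≤ Real.exp C' := by
    have := Real.add_one_le_exp C'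
    rw [hC'] at this ⊢
    linarith [abs_nonneg C]
  -- bound near the real axis
  have hnear : ∀ z : ℂ, |z.im| ≤ 1 → |x0| + 4 ≤ ‖z‖ →
      ‖ψ z‖ ≤ Real.exp (27 * C' * Real.sqrt (1 + ‖z‖)) := by
    intro z hz hzn
    obtain ⟨x, hx⟩ : ∃ x : ℝ, x = z.re := ⟨_, rfl⟩
    have hzx : |x| ≤ ‖z‖ := by rw [hx]; exact Complex.abs_re_le_norm z
    have hxz : ‖z‖ ≤ |x| + |z.im| := by rw [hx]; exact Complex.norm_le_abs_re_add_abs_im z
    obtain ⟨q, hq⟩ : ∃ q, q = Real.sqrt (3 + ‖z‖) := ⟨_, rfl⟩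
    have hq1 : 1 ≤ q := by
      rw [hq]
      refine Real.one_le_sqrt.2 ?_
      linarith [norm_nonneg z]
    have hq3 : q ≤ Real.sqrt 3 * Real.sqrt (1 + ‖z‖) := by
      rw [hq, ← Real.sqrt_mul (by norm_num)]
      refine Real.sqrt_le_sqrt ?_
      linarith [norm_nonneg z]
    have hball : ∀ w : ℂ, ‖w‖ ≤ 2 → |x0| < ‖(x : ℂ) + w‖ ∧ ‖(x : ℂ) + w‖ ≤ ‖z‖ + 2 := by
      intro w hw
      have h1 : ‖(x : ℂ)‖ = |x| := by rw [Complex.norm_real, Real.norm_eq_abs]
      have h2 := norm_sub_norm_le (x : ℂ) (-w)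
      rw [h1, norm_neg, sub_neg_eq_add] at h2
      have h3 := norm_add_le (x : ℂ) w
      rw [h1] at h3
      constructor <;> linarith
    have him : ∀ w : ℂ, ((x : ℂ) + w).im = w.im := fun w => by simp
    have hqC : 0 ≤ C' * q := by positivity
    have h := rhombL (E := fun w => ψ ((x : ℂ) + w)) (B0 := C' * q + 1)
      (C := Real.exp (C' * q)) (s := 2) (by positivity)
      (Real.one_le_exp hqC) (by norm_num)
      (fun w hw => DifferentiableAt.comp w (hdz _ (hball w hw).1) (differentiableAt_id.const_add _))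
      (fun w hw hwi => by
        rcases lt_or_gt_of_ne hwi with h | h
        · have h1 := hlow ((x : ℂ) + w) (by rw [him]; exact h)
          rw [him] at h1
          refine h1.trans ?_
          rw [← Real.exp_add]
          refine Real.exp_le_exp.2 ?_
          have h2 : Real.sqrt (1 + ‖(x : ℂ) + w‖) ≤ q := by
            rw [hq]
            refine Real.sqrt_le_sqrt ?_
            linarith [(hball w hw).2]
          have h3 : 0 ≤ 1 / |w.im| := by positivity
          calc C' * Real.sqrt (1 + ‖(x : ℂ) + w‖) * (1 + 1 / |w.im|)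
              ≤ C' * q * (1 + 1 / |w.im|) := by gcongr
            _ = C' * q + (C' * q) / |w.im| := by ring
            _ ≤ C' * q + (C' * q + 1) / |w.im| := by gcongr; linarith
        · have h1 := hup ((x : ℂ) + w) (by rw [him]; exact h)
          rw [him] at h1
          refine h1.trans ?_
          rw [abs_of_pos h]
          have h2 : 1 / w.im ≤ Real.exp (1 / w.im) := by
            have := Real.add_one_le_exp (1 / w.im)
            linarith
          calc M / w.im = M * (1 / w.im) := by ring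
            _ ≤ Real.exp (C' * q) * Real.exp ((C' * q + 1) / w.im) := by
                refine mul_le_mul ?_ (h2.trans (Real.exp_le_exp.2 ?_)) (by positivity)
                  (Real.exp_pos _).le
                · refine hMe.trans (Real.exp_le_exp.2 ?_)
                  nlinarith
                · gcongr
                  linarith)
      (z - (x : ℂ)) (by
        have : z - (x : ℂ) = (z.im : ℂ) * Complex.I := by
          rw [hx]
          apply Complex.ext <;> simp
        rw [this, norm_mul, Complex.norm_I, mul_one, Complex.norm_real, Real.norm_eq_abs]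
        linarith)
    simp only [add_sub_cancel] at h
    refine h.trans ?_
    rw [← Real.exp_add]
    refine Real.exp_le_exp.2 ?_
    have h3 : Real.sqrt 3 ≤ 9 / 5 := by
      rw [Real.sqrt_le_left (by norm_num)]
      norm_num
    have h4 : q ≤ 9 / 5 * Real.sqrt (1 + ‖z‖) :=
      hq3.trans (mul_le_mul_of_nonneg_right h3 (Real.sqrt_nonneg _))
    have h5 : 1 ≤ Real.sqrt (1 + ‖z‖) := Real.one_le_sqrt.2 (by linarith [norm_nonneg z])
    have h6 : C' * q ≤ C' * (9 / 5 * Real.sqrt (1 + ‖z‖)) :=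
      mul_le_mul_of_nonneg_left h4 (by linarith)
    have h7 : 1 * 1 ≤ C' * Real.sqrt (1 + ‖z‖) :=
      mul_le_mul hC'1 h5 (by norm_num) (by linarith)
    calc C' * q + 16 * (C' * q + 1) / 2 = 9 * (C' * q) + 8 := by ring
      _ ≤ 9 * (C' * (9 / 5 * Real.sqrt (1 + ‖z‖))) + 8 * (C' * Real.sqrt (1 + ‖z‖)) := by linarith
      _ ≤ 27 * C' * Real.sqrt (1 + ‖z‖) := by linarith
  obtain ⟨R, hR⟩ : ∃ R, R = |x0| + 4 := ⟨_, rfl⟩
  have hR0 : 0 < R := by rw [hR]; positivity
  have hgr : ∀ z : ℂ, R ≤ ‖z‖ → z.im ≤ 1 →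
      ‖ψ z‖ ≤ Real.exp (27 * C' * Real.sqrt (1 + ‖z‖)) := by
    intro z hz h1
    rcases le_or_gt |z.im| 1 with h | h
    · exact hnear z h (by rw [← hR]; exact hz)
    · have h2 : z.im < 0 := by
        by_contra h3
        rw [abs_of_nonneg (not_lt.1 h3)] at h
        linarith
      refine (hlow z h2).trans (Real.exp_le_exp.2 ?_)
      have h3 : 1 / |z.im| ≤ 1 := by
        rw [div_le_one (by linarith)]
        exact h.le
      have h4 : 0 ≤ C' * Real.sqrt (1 + ‖z‖) := by positivity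
      nlinarith
  obtain ⟨A, hA⟩ := (isCompact_sphere (0 : ℂ) R).exists_bound_of_continuousOn (f := ψ)
    (fun w hw => (hdz w (by
      rw [mem_sphere_zero_iff_norm] at hw
      rw [hw, hR]
      linarith)).continuousAt.continuousWithinAt)
  obtain ⟨K, hK⟩ : ∃ K, K = max 1 (max A M) := ⟨_, rfl⟩
  have hK1 : 1 ≤ K := by rw [hK]; exact le_max_left _ _
  have hKA : A ≤ K := by rw [hK]; exact (le_max_left _ _).trans (le_max_right _ _)
  have hKM : M ≤ K := by rw [hK]; exact (le_max_right _ _).trans (le_max_right _ _)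
  have hpl := pl_bound (ψ := ψ) (R := R) (C1 := 27 * C') (K := K) hR0 (by positivity) hK1
    (fun z hz => hdz z (by linarith)) hgr
    (fun z hz h1 => (hup z (by rw [h1]; norm_num)).trans (by rw [h1, div_one]; exact hKM))
    (fun z hz => (hA z (by rw [mem_sphere_zero_iff_norm]; exact hz)).trans hKA)
  have hK0 : 0 ≤ K := by linarith
  refine ca ψ x0 M (R + 1) 1 hd hup (fun η hη => ?_) ⟨K, fun z hz hzR => ?_⟩
  · obtain ⟨C2, hC2⟩ := hlo η (R + 1) hη
    refine ⟨|C2| + K, fun z hz => ?_⟩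
    have he : 1 ≤ Real.exp (η / |z.im|) := Real.one_le_exp (by positivity)
    have hn := norm_nonneg z
    rcases le_or_gt ‖z‖ (R + 1) with h | h
    · refine (hC2 z hz h).trans (mul_le_mul_of_nonneg_right ?_ (Real.exp_pos _).le)
      rw [pow_one]
      nlinarith [le_abs_self C2, abs_nonneg C2]
    · refine (hpl z (by linarith) (by linarith)).trans ?_
      rw [pow_one]
      have h1 : K ≤ (|C2| + K) * (1 + ‖z‖) := by nlinarith [abs_nonneg C2]
      have h2 : 0 ≤ (|C2| + K) * (1 + ‖z‖) := by positivity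
      nlinarith
  · have h1 := hpl z (by linarith) (by linarith)
    refine h1.trans ?_
    have h2 : 0 < |z.im| := abs_pos.2 hz.ne
    rw [le_div_iff₀ h2, pow_one]
    have h3 := Complex.abs_im_le_norm z
    nlinarith [norm_nonneg z]

end Pool.Agent.H78E.H92
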