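import Pool.Agent.Helper78_E.Stmts

/-!
# CA: a removable singularity
-/

namespace Pool.Agent.H78E.H92

open MeasureTheory Filter Topology Complex Metric

theorem negI_tendsto : Tendsto (fun y : ℝ => -(Complex.I * (y : ℂ))) (𝓝[>] 0) (𝓝[≠] (0 : ℂ)) := by
  rw [tendsto_nhdsWithin_iff]
  constructor
  · have h : Continuous (fun y : ℝ => -(Complex.I * (y : ℂ))) := by fun_prop
    have := h.tendsto 0
    simp only [ofReal_zero, mul_zero, neg_zero] at this
    exact this.mono_left nhdsWithin_le_nhds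
  · filter_upwards [self_mem_nhdsWithin] with y hy
    rw [Set.mem_Ioi] at hy
    simp [hy.ne']

theorem lim_zero {E : ℂ → ℂ} {L : ℂ} (hL : Tendsto E (𝓝[≠] 0) (𝓝 L))
    (h0 : Tendsto (fun y : ℝ => E (-(Complex.I * (y : ℂ)))) (𝓝[>] 0) (𝓝 0)) :
    Tendsto E (𝓝[≠] 0) (𝓝 0) := by
  have h1 := hL.comp negI_tendsto
  have : L = 0 := tendsto_nhds_unique h1 h0
  rwa [this] at hL

theorem rem_lim (N : ℕ) : ∀ {E : ℂ → ℂ} (_ : ∀ᶠ w in 𝓝[≠] (0 : ℂ), DifferentiableAt ℂ E w)
    (_ : Tendsto (fun y : ℝ => E (-(Complex.I * (y : ℂ)))) (𝓝[>] 0) (𝓝 0)) {C : ℝ}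
    (_ : ∀ᶠ w in 𝓝[≠] (0 : ℂ), ‖w‖ ^ N * ‖E w‖ ≤ C), Tendsto E (𝓝[≠] 0) (𝓝 0) := by
  induction N with
  | zero =>
    intro E hd h0 C hb
    refine lim_zero (Complex.tendsto_limUnder_of_differentiable_on_punctured_nhds_of_bounded_under
      hd ⟨C + ‖E 0‖, ?_⟩) h0
    rw [eventually_map]
    filter_upwards [hb] with w hw
    rw [pow_zero, one_mul] at hw
    exact (norm_sub_le _ _).trans (by linarith)
  | succ N ih =>
    intro E hd h0 C hb
    -- the function `w E(w)`
    have hF : Tendsto (fun w => w * E w) (𝓝[≠] 0) (𝓝 0) := by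
      refine ih ?_ ?_ (C := C) ?_
      · filter_upwards [hd] with w hw
        exact differentiableAt_id.mul hw
      · have h1 : Tendsto (fun y : ℝ => -(Complex.I * (y : ℂ))) (𝓝[>] 0) (𝓝 0) :=
          negI_tendsto.mono_right nhdsWithin_le_nhds
        have := h1.mul h0
        rwa [mul_zero] at this
      · filter_upwards [hb] with w hw
        rw [norm_mul, ← mul_assoc, ← pow_succ]
        exact hw
    set F : ℂ → ℂ := fun w => w * E w with hFdef
    have hFa : AnalyticAt ℂ F 0 := by
      refine analyticAt_of_differentiable_on_punctured_nhds_of_continuousAt ?_ ?_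
      · filter_upwards [hd] with w hw
        exact differentiableAt_id.mul hw
      · rw [continuousAt_iff_punctured_nhds]
        simpa [hFdef] using hF
    have hs := hFa.differentiableAt.hasDerivAt.tendsto_slope
    refine lim_zero (L := deriv F 0) (hs.congr' ?_) h0
    filter_upwards [self_mem_nhdsWithin] with w hw
    have hw' : w ≠ 0 := hw
    rw [slope_def_field]
    simp only [hFdef, zero_mul, sub_zero]
    field_simp

/-- if `E` has at most a pole at `0` and tends to `0` along one ray, then it extends to an entire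
function which vanishes at `0` -/
theorem rem_entire {E : ℂ → ℂ} (hd : ∀ w : ℂ, w ≠ 0 → DifferentiableAt ℂ E w)
    (h0 : Tendsto (fun y : ℝ => E (-(Complex.I * (y : ℂ)))) (𝓝[>] 0) (𝓝 0)) (N : ℕ) {C : ℝ}
    (hb : ∀ᶠ w in 𝓝[≠] (0 : ℂ), ‖w‖ ^ N * ‖E w‖ ≤ C) :
    Differentiable ℂ (Function.update E 0 0) := by
  have hd' : ∀ᶠ w in 𝓝[≠] (0 : ℂ), DifferentiableAt ℂ E w := by
    filter_upwards [self_mem_nhdsWithin] with w hw
    exact hd w hw
  have hl := rem_lim N hd' h0 hb
  have hne : ∀ w : ℂ, w ≠ 0 → DifferentiableAt ℂ (Function.update E 0 0) w := by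
    intro w hw
    refine (hd w hw).congr_of_eventuallyEq ?_
    filter_upwards [isOpen_ne.mem_nhds hw] with v hv
    exact Function.update_of_ne hv _ _
  intro w
  by_cases hw : w = 0
  · subst hw
    refine (analyticAt_of_differentiable_on_punctured_nhds_of_continuousAt ?_ ?_).differentiableAt
    · filter_upwards [self_mem_nhdsWithin] with v hv
      exact hne v hv
    · rw [continuousAt_update_same]
      exact hl
  · exact hne w hw

end Pool.Agent.H78E.H92
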