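import Pool.Agent.Helper92_E.Pos2a
import Pool.Agent.Helper78_E.Loc

/-!
# MP_7d2497_an, module POS2, part 2: characters, growth and continuity of the contour integrals
-/

namespace Pool.Agent.H78E.H92

open MeasureTheory Filter Topology Complex
open Pool.Agent.H78E

noncomputable section

theorem two_pi_ne : (2 * (Real.pi : ℂ) * Complex.I) ≠ 0 := by
  simp [Real.pi_ne_zero, Complex.I_ne_zero]

variable {J : InvSub} {ρ1 ρ : ℝ}

/-- The characters on the resolvent vector. -/
theorem ch_q {x : ℝ} (hx : (x : ℂ) ∈ J.hull) {z : ℂ} (hz : IsUnit (J.S.D z)) :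
    (z - (x : ℂ)) * J.ch hx (J.q z) = Complex.I := by
  have h1 := J.D_q hz
  have h2 := congrArg (J.ch hx) h1
  rw [CSemi.D_apply, map_sub, map_smul, J.ch_En, J.ch_qm, chi_rr (by simp), smul_eq_mul] at h2
  have h3 := one_add_ne (z := (x : ℂ)) (by simp)
  field_simp at h2
  have := Complex.I_mul_I
  linear_combination (Complex.I) * h2 + (z - x) * J.ch hx (J.q z) * this

theorem not_unit_of_hull {x : ℝ} (hx : (x : ℂ) ∈ J.hull) : ¬ IsUnit (J.S.D (x : ℂ)) := by
  intro h
  have h1 := ch_q hx h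
  rw [sub_self, zero_mul] at h1
  exact Complex.I_ne_zero h1.symm

theorem ch_pi {x : ℝ} (hx : (x : ℂ) ∈ J.hull) (f : Y) (y : J.Q) :
    J.ch hx (J.S.pi ((f : X) : ℝ → ℂ) y) = chi (x : ℂ) f * J.ch hx y := by
  obtain ⟨g, rfl⟩ := J.qm_surj y
  rw [← J.qm_pi, J.ch_qm, J.ch_qm]
  exact chi_conv (by simp) f g

section
variable (hC : Circ J ρ1 ρ)
include hC

theorem ch_Xi {x : ℝ} (hx : (x : ℂ) ∈ J.hull) (s : ℝ) :
    J.ch hx (Xi J ρ s) = if |x| < ρ then Complex.exp (-(Complex.I * (s : ℂ) * (x : ℂ))) else 0 := by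
  have hxn : ‖(x : ℂ)‖ = |x| := by rw [Complex.norm_real, Real.norm_eq_abs]
  have hne : ∀ z ∈ Metric.sphere (0 : ℂ) ρ, z - (x : ℂ) ≠ 0 := by
    intro z hz h
    rw [mem_sphere_zero_iff_norm] at hz
    rw [sub_eq_zero] at h
    exact not_unit_of_hull hx (h ▸ hC.unit' hz)
  have h1 : J.ch hx (Xi J ρ s) = (2 * (Real.pi : ℂ) * Complex.I)⁻¹ * ∮ z in C(0, ρ),
      (z - (x : ℂ))⁻¹ • Complex.exp (-(Complex.I * (s : ℂ) * z)) := by
    unfold Xi
    rw [map_smul, clm_circle2 (J.ch hx) (int_Xi hC s), smul_eq_mul]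
    congr 1
    apply circleIntegral.integral_congr hC.rpos.le
    intro z hz
    have h2 := hne z hz
    rw [mem_sphere_zero_iff_norm] at hz
    have h3 := ch_q hx (hC.unit' hz)
    simp only [map_smul, smul_eq_mul]
    have h4 : -Complex.I * J.ch hx (J.q z) = (z - (x : ℂ))⁻¹ := by
      rw [eq_comm, inv_eq_iff_eq_inv, eq_comm, inv_eq_of_mul_eq_one_left]
      have := Complex.I_mul_I
      linear_combination (-Complex.I) * h3 - this
    rw [h4]
    ring
  rw [h1]
  split_ifs with h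
  · have h2 : (x : ℂ) ∈ Metric.ball (0 : ℂ) ρ := by
      rw [mem_ball_zero_iff, hxn]
      exact h
    have h3 := DifferentiableOn.circleIntegral_sub_inv_smul
      (f := fun z : ℂ => Complex.exp (-(Complex.I * (s : ℂ) * z)))
      (exp_diff s).differentiableOn h2
    rw [h3, smul_eq_mul, ← mul_assoc, inv_mul_cancel₀ two_pi_ne, one_mul]
  · have h2 : ρ < |x| := by
      rcases lt_or_eq_of_le (not_lt.mp h) with h3 | h3
      · exact h3
      · exfalso
        exact not_unit_of_hull hx (hC.unit' (by rw [hxn, h3]))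
    have h3 : ∮ z in C(0, ρ), (z - (x : ℂ))⁻¹ • Complex.exp (-(Complex.I * (s : ℂ) * z)) = 0 := by
      have hd : ∀ z ∈ Metric.closedBall (0 : ℂ) ρ, DifferentiableAt ℂ
          (fun z : ℂ => (z - (x : ℂ))⁻¹ • Complex.exp (-(Complex.I * (s : ℂ) * z))) z := by
        intro z hz
        have h4 : z - (x : ℂ) ≠ 0 := by
          intro h5
          rw [sub_eq_zero] at h5
          rw [mem_closedBall_zero_iff, h5, hxn] at hz
          linarith
        have h5 : DifferentiableAt ℂ (fun z : ℂ => (z - (x : ℂ))⁻¹) z :=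
          DifferentiableAt.inv (by fun_prop) h4
        exact h5.smul (exp_diff s z)
      apply Complex.circleIntegral_eq_zero_of_differentiable_on_off_countable hC.rpos.le
        Set.countable_empty
      · intro z hz
        exact (hd z hz).continuousAt.continuousWithinAt
      · intro z hz
        exact hd z (Metric.ball_subset_closedBall hz.1)
    rw [h3, mul_zero]

theorem ch_Ec (hL : LapuStmt) {x : ℝ} (hx : (x : ℂ) ∈ J.hull) (s : ℝ) (y : J.Q) :
    J.ch hx (Ec J ρ s y) =
      (if |x| < ρ then Complex.exp (-(Complex.I * (s : ℂ) * (x : ℂ))) else 0) * J.ch hx y := by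
  obtain ⟨f, rfl⟩ := J.qm_surj y
  rw [← pi_Xi hC hL, ch_pi, ch_Xi hC hx, J.ch_qm, mul_comm]

/-- Continuity in the time variable. -/
theorem Xi_cont : Continuous (Xi J ρ) := by
  suffices h0 : Continuous fun s : ℝ => ∮ z in C(0, ρ),
      Complex.exp (-(Complex.I * (s : ℂ) * z)) • ((-Complex.I) • J.q z) by
    have h1 := h0.const_smul ((2 * (Real.pi : ℂ) * Complex.I)⁻¹)
    exact h1
  simp only [circleIntegral]
  apply intervalIntegral.continuous_parametric_intervalIntegral_of_continuous'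
  have h0 : Continuous fun θ : ℝ => J.q (circleMap 0 ρ θ) :=
    (q_contOn hC).comp_continuous (continuous_circleMap 0 ρ)
      (fun θ => circleMap_mem_sphere 0 hC.rpos.le θ)
  have h1 : Continuous fun θ : ℝ => (-Complex.I) • J.q (circleMap 0 ρ θ) := by
    have h9 := h0.const_smul (-Complex.I)
    exact h9
  have h2 : Continuous fun θ : ℝ => deriv (circleMap 0 ρ) θ := by
    simp only [deriv_circleMap]
    exact (continuous_circleMap 0 ρ).mul continuous_const
  have h3 : Continuous fun p : ℝ × ℝ =>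
      Complex.exp (-(Complex.I * (p.1 : ℂ) * circleMap 0 ρ p.2)) := by
    have := continuous_circleMap 0 ρ
    fun_prop
  exact (h2.comp continuous_snd).smul (h3.smul (h1.comp continuous_snd))

theorem Xi_pos {t : ℝ} (ht : 0 ≤ t) : ‖Xi J ρ t‖ ≤ ‖Xi J ρ 0‖ := by
  have h := T_Xi hC 0 ht
  rw [zero_add] at h
  rw [← h]
  exact J.S.norm_le t ht _

theorem Xi_neg (hGro : GroStmt) {a M B t : ℝ} (ha : 0 < a) (ht : 0 < t) (hM0 : 0 ≤ M)
    (hB0 : 0 ≤ B) (hlow : ∀ z : ℂ, z.im < 0 → IsUnit (J.S.D z))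
    (hM : ∀ z : ℂ, ‖z‖ = ρ → ‖J.q z‖ ≤ M)
    (hB : ∀ z : ℂ, ‖z‖ ≤ ρ → z.im < 0 → ‖J.q z‖ ≤ B * Real.exp (a / |z.im|)) :
    ‖Xi J ρ (-t)‖ ≤ ρ * (M + B) * Real.exp (2 * Real.sqrt (a * t)) := by
  have hρ := hC.rpos
  apply NormedSpace.norm_le_dual_bound ℂ _ (by positivity)
  intro κ
  have h1 := hGro (fun z => κ (J.q z)) 0 ρ (‖κ‖ * M) (‖κ‖ * B) a t hρ ha ht
    (by positivity) (by positivity)
    (by
      intro z hz
      exact κ.differentiableAt.comp z (J.q_differentiableAt (hlow z hz)))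
    (by
      intro z hz
      rw [Complex.ofReal_zero, sub_zero] at hz
      exact (κ.differentiableAt.comp z (J.q_differentiableAt (hC.unit' hz))).continuousAt)
    (by
      intro z hz
      rw [Complex.ofReal_zero, sub_zero] at hz
      exact (κ.le_opNorm _).trans (mul_le_mul_of_nonneg_left (hM z hz) (norm_nonneg _)))
    (by
      intro z hz hz2
      rw [Complex.ofReal_zero, sub_zero] at hz
      refine (κ.le_opNorm _).trans ?_
      rw [mul_assoc]
      exact mul_le_mul_of_nonneg_left (hB z hz hz2) (norm_nonneg _))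
  rw [Complex.ofReal_zero] at h1
  have h2 : κ (Xi J ρ (-t)) = ((2 * (Real.pi : ℂ) * Complex.I)⁻¹ * (-Complex.I)) *
      ∮ z in C(0, ρ), Complex.exp (Complex.I * z * (t : ℂ)) * κ (J.q z) := by
    unfold Xi
    rw [map_smul, clm_circle2 κ (int_Xi hC (-t)), smul_eq_mul,
      mul_assoc ((2 * (Real.pi : ℂ) * Complex.I)⁻¹) (-Complex.I)]
    congr 1
    rw [← circleIntegral.integral_const_mul]
    apply circleIntegral.integral_congr hρ.le
    intro z _
    simp only [map_smul, smul_eq_mul]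
    have h3 : -(Complex.I * ((-t : ℝ) : ℂ) * z) = Complex.I * z * (t : ℂ) := by
      push_cast
      ring
    rw [h3]
    ring
  have h4 : ‖(2 * (Real.pi : ℂ) * Complex.I)⁻¹ * (-Complex.I)‖ = (2 * Real.pi)⁻¹ := by
    rw [norm_mul, norm_inv, norm_mul, norm_mul, norm_neg, Complex.norm_I, Complex.norm_real,
      Real.norm_eq_abs, abs_of_pos Real.pi_pos, Complex.norm_ofNat]
    ring
  rw [h2, norm_mul, h4]
  have hpi : 0 < Real.pi := Real.pi_pos
  calc (2 * Real.pi)⁻¹ * ‖∮ z in C(0, ρ), Complex.exp (Complex.I * z * (t : ℂ)) * κ (J.q z)‖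
      ≤ (2 * Real.pi)⁻¹ * (2 * Real.pi * ρ * (‖κ‖ * M + ‖κ‖ * B) *
        Real.exp (2 * Real.sqrt (a * t))) := by
        apply mul_le_mul_of_nonneg_left h1
        positivity
    _ = _ := by
        field_simp

end

/-- From local bounds of the resolvent to a bound on the lower half of a disc. -/
theorem q_bound_disc {a : ℝ} (ha : 0 < a)
    (hloc : ∀ x0 : ℝ, (x0 : ℂ) ∈ J.hull → ∃ d B : ℝ, 0 < d ∧ 0 ≤ B ∧ ∀ z : ℂ, z.im < 0 →
      ‖z - (x0 : ℂ)‖ < d → ‖J.S.En 1 * Ring.inverse (J.S.D z)‖ ≤ B * Real.exp (a / |z.im|))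
    (hunit : ∀ z : ℂ, z ∉ J.hull → IsUnit (J.S.D z)) (hreal : ∀ z ∈ J.hull, z.im = 0) (ρ : ℝ) :
    ∃ B : ℝ, 0 ≤ B ∧ ∀ z : ℂ, ‖z‖ ≤ ρ → z.im < 0 → ‖J.q z‖ ≤ B * Real.exp (a / |z.im|) := by
  have hK : IsCompact (Metric.closedBall (0 : ℂ) ρ) := isCompact_closedBall _ _
  have hexp : ∀ z : ℂ, 1 ≤ Real.exp (a / |z.im|) := by
    intro z
    apply Real.one_le_exp
    positivity
  have h := hK.induction_on (p := fun S => ∃ B : ℝ, 0 ≤ B ∧ ∀ z ∈ S, z.im < 0 →
      ‖J.q z‖ ≤ B * Real.exp (a / |z.im|)) ⟨0, le_rfl, fun z hz => absurd hz (Set.notMem_empty z)⟩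
    (by
      rintro S T hST ⟨B, hB, h⟩
      exact ⟨B, hB, fun z hz => h z (hST hz)⟩)
    (by
      rintro S T ⟨B1, hB1, h1⟩ ⟨B2, hB2, h2⟩
      refine ⟨B1 + B2, by positivity, ?_⟩
      rintro z (hz | hz) him
      · refine (h1 z hz him).trans ?_
        have := hexp z
        nlinarith
      · refine (h2 z hz him).trans ?_
        have := hexp z
        nlinarith)
    (by
      intro x _
      by_cases hx : x ∈ J.hull
      · have hxr : x = ((x.re : ℝ) : ℂ) := by
          apply Complex.ext <;> simp [hreal x hx]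
        obtain ⟨d, B, hd, hB, hloc'⟩ := hloc x.re (by rw [← hxr]; exact hx)
        refine ⟨Metric.ball x d, mem_nhdsWithin_of_mem_nhds (Metric.ball_mem_nhds _ hd),
          ‖rr‖ * (1 + (1 + (‖x‖ + d)) * B), by positivity, ?_⟩
        intro z hz him
        rw [Metric.mem_ball, dist_eq_norm] at hz
        have h1 := hloc' z him (by rw [← hxr]; exact hz)
        have hz' : ‖z‖ ≤ ‖x‖ + d := by
          have h2 : z = x + (z - x) := by ring
          rw [h2]
          exact (norm_add_le _ _).trans (by linarith)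
        have hu : IsUnit (J.S.D z) := by
          apply hunit
          intro h
          have := hreal z h
          linarith
        have h2 : J.q z = J.qm rr + (1 + Complex.I * z) • J.S.En 1 (J.q z) := by
          rw [← J.D_q hu, CSemi.D_apply]
          abel
        have h3 : J.S.En 1 (J.q z) = (J.S.En 1 * Ring.inverse (J.S.D z)) (J.qm rr) := rfl
        have h4 : ‖J.S.En 1 (J.q z)‖ ≤ B * Real.exp (a / |z.im|) * ‖rr‖ := by
          rw [h3]
          refine (ContinuousLinearMap.le_opNorm _ _).trans ?_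
          exact mul_le_mul h1 (J.qm_norm_le rr) (norm_nonneg _) (by positivity)
        have h5 := norm_one_add_le z
        have h6 := hexp z
        calc ‖J.q z‖ = ‖J.qm rr + (1 + Complex.I * z) • J.S.En 1 (J.q z)‖ := by rw [← h2]
          _ ≤ ‖J.qm rr‖ + ‖1 + Complex.I * z‖ * ‖J.S.En 1 (J.q z)‖ := by
              refine (norm_add_le _ _).trans ?_
              rw [norm_smul]
          _ ≤ ‖rr‖ + (1 + (‖x‖ + d)) * (B * Real.exp (a / |z.im|) * ‖rr‖) := by
              apply add_le_add (J.qm_norm_le rr)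
              exact mul_le_mul (h5.trans (by linarith)) h4 (norm_nonneg _) (by positivity)
          _ ≤ ‖rr‖ * Real.exp (a / |z.im|) +
              (1 + (‖x‖ + d)) * (B * Real.exp (a / |z.im|) * ‖rr‖) := by
              apply add_le_add_left
              exact le_mul_of_one_le_right (norm_nonneg _) h6
          _ = _ := by ring
      · have hc : ContinuousAt (fun z => ‖J.q z‖) x :=
          (J.q_differentiableAt (hunit x hx)).continuousAt.norm
        have h1 : ∀ᶠ z in 𝓝 x, ‖J.q z‖ < ‖J.q x‖ + 1 := hc.eventually_lt_const (by linarith)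
        refine ⟨{z | ‖J.q z‖ < ‖J.q x‖ + 1}, mem_nhdsWithin_of_mem_nhds h1,
          ‖J.q x‖ + 1, by positivity, ?_⟩
        intro z hz _
        have hz' : ‖J.q z‖ < ‖J.q x‖ + 1 := hz
        refine hz'.le.trans ?_
        exact le_mul_of_one_le_right (by positivity) (hexp z))
  obtain ⟨B, hB, h⟩ := h
  exact ⟨B, hB, fun z hz him => h z (by rw [mem_closedBall_zero_iff]; exact hz) him⟩

end

end Pool.Agent.H78E.H92
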