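import Pool.Agent.Helper92_E.Pos2c

/-!
# MP_7d2497_an, module POS2, part 4: the two parts of the functional
-/

namespace Pool.Agent.H78E.H92

open MeasureTheory Filter Topology Complex
open Pool.Agent.H78E

noncomputable section

theorem sep0 {l : Y →L[ℂ] ℂ} {x : (ann l).Q}
    (h : ∀ s : ℝ, 0 ≤ s → kq l ((ann l).S.T s x) = 0) : x = 0 := by
  obtain ⟨f, rfl⟩ := (ann l).qm_surj x
  rw [(ann l).qm_eq_zero]
  intro s hs
  have h1 := h s hs
  rw [← (ann l).qm_T hs, kq_qm] at h1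
  exact h1

theorem mem_ann_comp {l : Y →L[ℂ] ℂ} {P : (ann l).Q →L[ℂ] (ann l).Q}
    (hP : ∀ s : ℝ, 0 ≤ s → ∀ x, P ((ann l).S.T s x) = (ann l).S.T s (P x)) (f : Y) :
    f ∈ (ann ((kq l).comp (P.comp (ann l).qm))).I ↔ P ((ann l).qm f) = 0 := by
  have h1 : ∀ s : ℝ, 0 ≤ s → ((kq l).comp (P.comp (ann l).qm)) (YT s f) =
      kq l ((ann l).S.T s (P ((ann l).qm f))) := by
    intro s hs
    rw [ContinuousLinearMap.comp_apply, ContinuousLinearMap.comp_apply, (ann l).qm_T hs, hP s hs]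
  constructor
  · intro hf
    apply sep0
    intro s hs
    rw [← h1 s hs]
    exact hf s hs
  · intro hf s hs
    rw [h1 s hs, hf, map_zero, map_zero]

/-- Fubini for a bounded kernel depending on the sum. -/
theorem fubini_sum {h f G : ℝ → ℂ} (hh : Integrable h volume) (hf : Integrable f volume)
    (hGm : Measurable G) {C : ℝ} (hGC : ∀ t, ‖G t‖ ≤ C) :
    ∫ s : ℝ, h s * ∫ t : ℝ, f t * G (t + s) = ∫ t : ℝ, f t * ∫ s : ℝ, h s * G (s + t) := by
  have h1 : Integrable (fun p : ℝ × ℝ => (h p.1 * f p.2) * G (p.2 + p.1))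
      ((volume : Measure ℝ).prod volume) := by
    refine (hh.mul_prod hf).mul_bdd (c := C) ?_ (Eventually.of_forall fun p => hGC _)
    apply Measurable.aestronglyMeasurable
    exact hGm.comp (measurable_snd.add measurable_fst)
  have h2 := integral_integral_swap (f := fun s t : ℝ => (h s * f t) * G (t + s)) h1
  have h3 : ∀ s : ℝ, ∫ t : ℝ, (h s * f t) * G (t + s) = h s * ∫ t : ℝ, f t * G (t + s) := by
    intro s
    rw [← integral_const_mul]
    congr 1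
    ext1 t
    ring
  have h4 : ∀ t : ℝ, ∫ s : ℝ, (h s * f t) * G (t + s) = f t * ∫ s : ℝ, h s * G (s + t) := by
    intro t
    rw [← integral_const_mul]
    congr 1
    ext1 s
    rw [add_comm t s]
    ring
  simp only [h3, h4] at h2
  exact h2

variable {l : Y →L[ℂ] ℂ} {ρ1 ρ : ℝ} (hC : Circ (ann l) ρ1 ρ)

/-- The bounded part of the extension. -/
def Gb (l : Y →L[ℂ] ℂ) (ρ : ℝ) (t : ℝ) : ℂ := kq l (Xi (ann l) ρ t)

/-- The far part of the functional. -/
def lf (l : Y →L[ℂ] ℂ) (ρ : ℝ) : Y →L[ℂ] ℂ :=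
  (kq l).comp (((1 : (ann l).Q →L[ℂ] (ann l).Q) - Ec (ann l) ρ 0).comp (ann l).qm)

theorem lf_apply (F : Y) : lf l ρ F = l F - kq l (Ec (ann l) ρ 0 ((ann l).qm F)) := by
  unfold lf
  rw [ContinuousLinearMap.comp_apply, ContinuousLinearMap.comp_apply, sub_apply, map_sub]
  rfl

include hC

theorem Gb_cont : Continuous (Gb l ρ) := (kq l).continuous.comp (Xi_cont hC)

theorem rep_b (hL : LapuStmt) (F : Y) (s : ℝ) :
    ∫ t : ℝ, ((F : X) : ℝ → ℂ) t * Gb l ρ (t + s) = kq l (Ec (ann l) ρ s ((ann l).qm F)) := by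
  have hi := (ann l).S.cont_mul (Y_integrable F).integrableOn (Xi (ann l) ρ s)
  rw [← pi_Xi hC hL, (ann l).S.pi_apply (Y_integrable F).integrableOn,
    ← ContinuousLinearMap.integral_comp_comm (kq l) hi,
    Y_integral_Ioi F (F := fun u t => u * Gb l ρ (t + s)) (by simp)]
  apply setIntegral_congr_fun measurableSet_Ioi
  intro t ht
  have ht' : (0 : ℝ) < t := ht
  simp only [map_smul, smul_eq_mul]
  rw [T_Xi hC s ht'.le, add_comm s t]
  rfl

theorem E0_T {s : ℝ} (hs : 0 ≤ s) (x : (ann l).Q) :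
    Ec (ann l) ρ 0 ((ann l).S.T s x) = (ann l).S.T s (Ec (ann l) ρ 0 x) := by
  have h := (Ec_comm hC ((ann l).T_commute_En hs).symm 0).eq
  exact (congrArg (fun A : (ann l).Q →L[ℂ] (ann l).Q => A x) h).symm

theorem E0_E (hRiec : RiecStmt) (s : ℝ) (x : (ann l).Q) :
    Ec (ann l) ρ s (Ec (ann l) ρ 0 x) = Ec (ann l) ρ s x := by
  have h := Ec_mul hC hRiec s 0
  rw [add_zero] at h
  exact congrArg (fun A : (ann l).Q →L[ℂ] (ann l).Q => A x) h

theorem mem_ann_lf (F : Y) :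
    F ∈ (ann (lf l ρ)).I ↔ Ec (ann l) ρ 0 ((ann l).qm F) = (ann l).qm F := by
  unfold lf
  rw [mem_ann_comp]
  · rw [sub_apply]
    change (ann l).qm F - Ec (ann l) ρ 0 ((ann l).qm F) = 0 ↔ _
    rw [sub_eq_zero, eq_comm]
  · intro s hs x
    rw [sub_apply, sub_apply, map_sub, E0_T hC hs]
    rfl

theorem ann_le_lf : (ann l).I ≤ (ann (lf l ρ)).I := by
  intro F hF
  rw [mem_ann_lf hC, (ann l).qm_eq_zero.mpr hF, map_zero]

theorem far_of_hull (hL : LapuStmt) (hRiec : RiecStmt) {x : ℝ}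
    (hx : (x : ℂ) ∈ (ann (lf l ρ)).hull) : (x : ℂ) ∈ (ann l).hull ∧ ¬ |x| < ρ := by
  have h1 : (x : ℂ) ∈ (ann l).hull := hull_mono (ann_le_lf hC) hx
  refine ⟨h1, fun hlt => ?_⟩
  obtain ⟨F, hF⟩ := (ann l).qm_surj (Ec (ann l) ρ 0 ((ann l).qm rr))
  have h2 : F ∈ (ann (lf l ρ)).I := by
    rw [mem_ann_lf hC, hF, E0_E hC hRiec]
  have h3 := hx.2 F h2
  have h4 := ch_Ec hC hL h1 0 ((ann l).qm rr)
  rw [← hF, if_pos hlt, (ann l).ch_qm, (ann l).ch_qm, h3] at h4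
  simp only [Complex.ofReal_zero, mul_zero, zero_mul, neg_zero, Complex.exp_zero, one_mul] at h4
  exact chi_rr_ne (by simp) h4.symm

theorem hull_of_far (hL : LapuStmt) {x : ℝ} (hx : (x : ℂ) ∈ (ann l).hull) (hn : ¬ |x| < ρ) :
    (x : ℂ) ∈ (ann (lf l ρ)).hull := by
  refine ⟨by simp, fun F hF => ?_⟩
  rw [mem_ann_lf hC] at hF
  have h4 := ch_Ec hC hL hx 0 ((ann l).qm F)
  rw [hF, if_neg hn, zero_mul, (ann l).ch_qm] at h4
  exact h4

/-- The annihilation argument. -/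
theorem zeta_zero (hL : LapuStmt) (hRiec : RiecStmt) {Gf : ℝ → ℂ} (hGm : Measurable Gf) {Cf : ℝ}
    (hGC : ∀ t, ‖Gf t‖ ≤ Cf)
    (hkill : ∀ F ∈ (ann (lf l ρ)).I, ∀ s : ℝ, ∫ t : ℝ, ((F : X) : ℝ → ℂ) t * Gf (t + s) = 0)
    {f : ℝ → ℂ} (hf : Integrable f volume)
    (hfX : Integrable (fun t => f t • Xi (ann l) ρ t) volume)
    (hfG : ∀ s : ℝ, Integrable (fun t => f t * Gb l ρ (t + s)) volume)
    (hf0 : ∀ s : ℝ, ∫ t : ℝ, f t * (Gb l ρ (t + s) + Gf (t + s)) = 0) :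
    ∫ t : ℝ, f t • Xi (ann l) ρ t = 0 := by
  set J := ann l with hJ
  set ζ : J.Q := ∫ t : ℝ, f t • Xi J ρ t with hζ
  obtain ⟨g0, hg0⟩ := J.qm_surj ζ
  set k : Y →L[ℂ] ℂ := (kq l).comp ((J.S.pi ((g0 : X) : ℝ → ℂ)).comp J.qm) with hk
  have hk1 : ∀ h : Y, J.S.pi ((g0 : X) : ℝ → ℂ) (J.qm h) = J.S.pi ((h : X) : ℝ → ℂ) ζ := by
    intro h
    rw [← hg0, ← J.qm_pi, ← J.qm_pi]
    congr 1
    exact conv_comm hL g0 h
  have hk2 : ∀ h : Y, k h = kq l (J.S.pi ((h : X) : ℝ → ℂ) ζ) := by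
    intro h
    rw [← hk1]
    rfl
  -- the pairing of `ζ`
  have hTζ : ∀ s : ℝ, 0 ≤ s → kq l (J.S.T s ζ) = -∫ t : ℝ, f t * Gf (t + s) := by
    intro s hs
    have h1 : kq l (J.S.T s ζ) = ∫ t : ℝ, f t * Gb l ρ (t + s) := by
      have h2 := ContinuousLinearMap.integral_comp_comm ((kq l).comp (J.S.T s)) hfX
      rw [← hζ, ContinuousLinearMap.comp_apply] at h2
      rw [← h2]
      congr 1
      ext1 t
      rw [map_smul, ContinuousLinearMap.comp_apply, T_Xi hC t hs, smul_eq_mul]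
      rfl
    have h3 := hf0 s
    have h4 : Integrable (fun t => f t * Gf (t + s)) volume :=
      hf.mul_bdd (c := Cf) (hGm.comp (measurable_add_const s)).aestronglyMeasurable
        (Eventually.of_forall fun t => hGC _)
    simp only [mul_add] at h3
    rw [integral_add (hfG s) h4] at h3
    rw [h1]
    exact eq_neg_of_add_eq_zero_left h3
  -- elements killed by the projection
  have hi : ∀ h : Y, Ec J ρ 0 (J.qm h) = 0 → k h = 0 := by
    intro h hh
    rw [hk2]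
    have h1 := ContinuousLinearMap.integral_comp_comm (J.S.pi ((h : X) : ℝ → ℂ)) hfX
    rw [← hζ] at h1
    have h2 : J.S.pi ((h : X) : ℝ → ℂ) ζ = 0 := by
      rw [← h1]
      have h3 : ∀ t : ℝ, J.S.pi ((h : X) : ℝ → ℂ) (f t • Xi J ρ t) = 0 := by
        intro t
        rw [map_smul, pi_Xi hC hL, ← E0_E hC hRiec, hh, map_zero, smul_zero]
      simp only [h3, integral_zero]
    rw [h2, map_zero]
  -- elements in the range of the projection
  have hii : ∀ h : Y, Ec J ρ 0 (J.qm h) = J.qm h → k h = 0 := by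
    intro h hh
    have hmem : h ∈ (ann (lf l ρ)).I := (mem_ann_lf hC h).mpr hh
    have hci := J.S.cont_mul (Y_integrable h).integrableOn ζ
    rw [hk2, J.S.pi_apply (Y_integrable h).integrableOn,
      ← ContinuousLinearMap.integral_comp_comm (kq l) hci]
    have h1 : ∫ s in Set.Ioi (0 : ℝ), kq l (((h : X) : ℝ → ℂ) s • J.S.T s ζ) =
        ∫ s in Set.Ioi (0 : ℝ), ((h : X) : ℝ → ℂ) s * (-∫ t : ℝ, f t * Gf (t + s)) := by
      apply setIntegral_congr_fun measurableSet_Ioi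
      intro s hs
      have hs' : (0 : ℝ) < s := hs
      simp only [map_smul, smul_eq_mul]
      rw [hTζ s hs'.le]
    rw [h1, ← Y_integral_Ioi h (F := fun u s => u * (-∫ t : ℝ, f t * Gf (t + s))) (by simp)]
    simp only [mul_neg]
    rw [integral_neg, fubini_sum (Y_integrable h) hf hGm hGC]
    have h2 : ∀ t : ℝ, f t * ∫ s : ℝ, ((h : X) : ℝ → ℂ) s * Gf (s + t) = 0 := by
      intro t
      rw [hkill h hmem t, mul_zero]
    simp only [h2, integral_zero, neg_zero]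
  have hk0 : ∀ h : Y, k h = 0 := by
    intro h
    obtain ⟨h1, hh1⟩ := J.qm_surj (Ec J ρ 0 (J.qm h))
    have e1 : k h1 = 0 := hii h1 (by rw [hh1, E0_E hC hRiec])
    have e2 : k (h - h1) = 0 := hi (h - h1) (by
      rw [map_sub, map_sub, hh1, E0_E hC hRiec, sub_self])
    rw [map_sub, e1, sub_zero] at e2
    exact e2
  have h1 : J.S.pi ((g0 : X) : ℝ → ℂ) (J.qm rr) = 0 := by
    apply sep0
    intro s hs
    have h2 : J.S.T s (J.S.pi ((g0 : X) : ℝ → ℂ) (J.qm rr)) =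
        J.S.pi ((g0 : X) : ℝ → ℂ) (J.qm (YT s rr)) := by
      rw [J.qm_T hs]
      exact J.S.pi_commute J.S (J.S.T s) (fun u hu y => by
        rw [← J.S.add s u hs hu, ← J.S.add u s hu hs, add_comm]) _ _
    rw [h2]
    exact hk0 (YT s rr)
  apply En_inj J
  rw [← pi_rr, ← hk1]
  exact h1

end

end Pool.Agent.H78E.H92
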